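import Pool.Agent.Y647.LAC.Fc

set_option autoImplicit false

/-!
The first switched two-factor is connected: the rows are merged one after the other.
-/

namespace Pool.Agent.Y647.LAC

open Finset SimpleGraph H931R3.LA Pool.Agent.W111.LAR Pool.Agent.TH486.LAC

section

variable {A : Type} [AddCommGroup A]

/-- The corners of the switched squares. -/
def DD (a b : A) (jj : ℕ → ℕ) (L : ℕ) : Set A := {x | ∃ i < L, x = i • b + jj i • a}

theorem mod_gap {r t q : ℕ} (h : t ≡ q [MOD r]) (h1 : q < t) (h2 : t < q + r) : False := by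
  have h3 := (Nat.modEq_iff_dvd' h1.le).1 h.symm
  have h4 := Nat.le_of_dvd (by omega) h3
  omega

/-- Representatives of a residue in a window. -/
theorem exists_win {r : ℕ} (hr : 0 < r) (k q : ℕ) : ∃ t < r, q + t ≡ k [MOD r] := by
  refine ⟨(k + (r - 1) * q) % r, Nat.mod_lt _ hr, ?_⟩
  have h1 : q + (k + (r - 1) * q) % r ≡ q + (k + (r - 1) * q) [MOD r] :=
    Nat.ModEq.add_left q (Nat.mod_modEq _ r)
  refine h1.trans ?_
  obtain ⟨r', rfl⟩ : ∃ r', r = r' + 1 := ⟨r - 1, by omega⟩
  have e : q + (k + (r' + 1 - 1) * q) = k + (r' + 1) * q := by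
    rw [Nat.add_sub_cancel]; ring
  rw [e]
  show (k + (r' + 1) * q) % (r' + 1) = k % (r' + 1)
  rw [Nat.add_mul_mod_self_left]

theorem nsmul_modEq {a : A} {r k k' : ℕ} (hr : r • a = 0) (h : k ≡ k' [MOD r]) :
    k • a = k' • a := by
  have key : ∀ n : ℕ, n • a = (n % r) • a := by
    intro n
    conv_lhs => rw [← Nat.mod_add_div n r]
    rw [add_nsmul, mul_comm, mul_nsmul', hr, nsmul_zero, add_zero]
  rw [key k, key k', h]

theorem jj_step (jj : ℕ → ℕ) (hjj : ∀ i, jj (i + 1) = jj i + 1 ∨ jj i = jj (i + 1) + 1)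
    {r : ℕ} (hr : 2 ≤ r) (i : ℕ) : ¬ jj (i + 1) ≡ jj i [MOD r] := by
  intro h
  rcases hjj i with h1 | h1
  · exact mod_gap h (by omega) (by omega)
  · exact mod_gap h.symm (by omega) (by omega)

/-- The rows are merged one after the other. -/
theorem chain {a b : A} {g L r : ℕ} (hL : L + 1 = g) (jj : ℕ → ℕ) (hra : r • a = 0) (hr : 3 ≤ r)
    (hcov : ∀ x : A, ∃ i < g, ∃ k : ℕ, x = i • b + k • a)
    (huniq : ∀ i i' k k' : ℕ, i < g → i' < g → i • b + k • a = i' • b + k' • a →
      i = i' ∧ k ≡ k' [MOD r])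
    (hjj : ∀ i, jj (i + 1) = jj i + 1 ∨ jj i = jj (i + 1) + 1) (v w : A) :
    (Fc a b (DD a b jj L)).Reachable v w := by
  set F := Fc a b (DD a b jj L) with hF
  -- membership
  have hD1 : ∀ i k : ℕ, i < g → i • b + k • a ∈ DD a b jj L → i < L ∧ k ≡ jj i [MOD r] := by
    rintro i k hi ⟨i', hi', h⟩
    obtain ⟨h1, h2⟩ := huniq i i' k (jj i') hi (by omega) h
    subst h1
    exact ⟨hi', h2⟩
  have hD2 : ∀ i k : ℕ, i < g → i • b + k • a - b ∈ DD a b jj L →
      ∃ i', i = i' + 1 ∧ k ≡ jj i' [MOD r] := by
    rintro i k hi ⟨i', hi', h⟩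
    have h3 : i • b + k • a = (i' + 1) • b + jj i' • a := by
      rw [sub_eq_iff_eq_add] at h
      rw [h, succ_nsmul]; abel
    obtain ⟨h1, h2⟩ := huniq i (i' + 1) k (jj i') hi (by omega) h3
    exact ⟨i', h1, h2⟩
  -- arcs in the row `i`
  have harc : ∀ i l l' : ℕ, i < g → l ≤ l' →
      (∀ t, l ≤ t → t < l' → ¬ (i < L ∧ t ≡ jj i [MOD r]) ∧
        ∀ i', i = i' + 1 → ¬ t ≡ jj i' [MOD r]) →
      F.Reachable (i • b + l • a) (i • b + l' • a) := by
    intro i l l' hi hll h
    refine Fc_arc _ hll fun t h1 h2 => ⟨fun h3 => ?_, fun h3 => ?_⟩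
    · exact (h t h1 h2).1 (hD1 i t hi h3)
    · obtain ⟨i', h4, h5⟩ := hD2 i t hi h3
      exact (h t h1 h2).2 i' h4 h5
  -- all rows are reached
  have hrow : ∀ i, i < g → ∀ k : ℕ, F.Reachable (jj 0 • a) (i • b + k • a) := by
    intro i
    induction i with
    | zero =>
      intro hi k
      obtain ⟨t, ht, hk⟩ := exists_win (show 0 < r by omega) k (jj 0 + 1)
      have h1 := harc 0 (jj 0 + 1 + t) (jj 0 + r) hi (by omega) (fun t' h1 h2 =>
        ⟨fun h3 => mod_gap h3.2 (by omega) (by omega), fun i' h3 => by omega⟩)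
      simp only [zero_nsmul, zero_add] at h1 ⊢
      rw [nsmul_modEq hra hk, nsmul_modEq hra (show jj 0 + r ≡ jj 0 [MOD r] by
        show (jj 0 + r) % r = jj 0 % r
        rw [Nat.add_mod_right])] at h1
      exact h1.symm
    | succ i ih =>
      intro hi k
      have hiL : i < L := by omega
      have hx : i • b + jj i • a ∈ DD a b jj L := ⟨i, hiL, rfl⟩
      have hp : F.Reachable (jj 0 • a) ((i + 1) • b + jj i • a) := by
        have h1 := Fc_b (a := a) (b := b) hx
        have e1 : i • b + jj i • a + b = (i + 1) • b + jj i • a := by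
          rw [succ_nsmul]; abel
        rw [e1] at h1
        exact (ih (by omega) _).trans h1
      have hp' : F.Reachable (jj 0 • a) ((i + 1) • b + (jj i + 1) • a) := by
        have h1 := Fc_b' (a := a) (b := b) hx
        have e1 : i • b + jj i • a + a + b = (i + 1) • b + (jj i + 1) • a := by
          rw [succ_nsmul, succ_nsmul]; abel
        have e2 : i • b + jj i • a + a = i • b + (jj i + 1) • a := by
          rw [succ_nsmul]; abel
        rw [e1, e2] at h1
        exact (ih (by omega) _).trans h1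
      rcases hjj i with hj | hj
      · obtain ⟨t, ht, hk⟩ := exists_win (show 0 < r by omega) k (jj i + 1)
        rw [← nsmul_modEq hra hk]
        rcases Nat.eq_zero_or_pos t with h0 | h0
        · subst h0
          exact hp'
        · have h1 := harc (i + 1) (jj i + 1 + t) (jj i + r) hi (by omega) (fun t' h1 h2 => by
            refine ⟨fun h3 => ?_, fun i' h3 h4 => ?_⟩
            · rw [hj] at h3
              exact mod_gap h3.2 (by omega) (by omega)
            · have : i' = i := by omega
              subst this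
              exact mod_gap h4 (by omega) (by omega))
          rw [nsmul_modEq hra (show jj i + r ≡ jj i [MOD r] by
            show (jj i + r) % r = jj i % r
            rw [Nat.add_mod_right])] at h1
          exact hp.trans h1.symm
      · obtain ⟨t, ht, hk⟩ := exists_win (show 0 < r by omega) k (jj (i + 1) + 1)
        rw [← nsmul_modEq hra hk]
        rcases Nat.eq_zero_or_pos t with h0 | h0
        · subst h0
          rw [add_zero, ← hj]
          exact hp
        · have h1 := harc (i + 1) (jj (i + 1) + 2) (jj (i + 1) + 1 + t) hi (by omega)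
            (fun t' h1 h2 => by
            refine ⟨fun h3 => ?_, fun i' h3 h4 => ?_⟩
            · exact mod_gap h3.2 (by omega) (by omega)
            · have : i' = i := by omega
              subst this
              exact mod_gap h4 (by omega) (by omega))
          have e1 : jj i + 1 = jj (i + 1) + 2 := by omega
          rw [e1] at hp'
          exact hp'.trans h1
  obtain ⟨i, hi, k, rfl⟩ := hcov v
  obtain ⟨i', hi', k', rfl⟩ := hcov w
  exact (hrow i hi k).symm.trans (hrow i' hi' k')

end

end Pool.Agent.Y647.LAC
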