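import Pool.Agent.Y647.LAC.Transfer

set_option autoImplicit false

/-!
The first switched two-factor is connected: an odd number of rows, switched all around.
-/

namespace Pool.Agent.Y647.LAC

open Finset SimpleGraph H931R3.LA Pool.Agent.W111.LAR Pool.Agent.TH486.LAC

section

variable {A : Type} [AddCommGroup A]

theorem closed {a b : A} {g r c : ℕ} (hg : g % 2 = 1) (hg3 : 3 ≤ g) (jj : ℕ → ℕ)
    (hra : r • a = 0)
    (hr : 3 ≤ r) (hc : g • b = c • a)
    (hcov : ∀ x : A, ∃ i < g, ∃ k : ℕ, x = i • b + k • a)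
    (huniq : ∀ i i' k k' : ℕ, i < g → i' < g → i • b + k • a = i' • b + k' • a →
      i = i' ∧ k ≡ k' [MOD r])
    (hjj : ∀ i, jj (i + 1) = jj i + 1 ∨ jj i = jj (i + 1) + 1)
    (he : ¬ c + jj (g - 1) ≡ jj 0 [MOD r]) (v w : A) :
    (Fc a b (DD a b jj g)).Reachable v w := by
  set F := Fc a b (DD a b jj g) with hF
  have hD1 : ∀ i k : ℕ, i < g → i • b + k • a ∈ DD a b jj g → k ≡ jj i [MOD r] := by
    rintro i k hi ⟨i', hi', h⟩
    obtain ⟨h1, h2⟩ := huniq i i' k (jj i') hi hi' h
    subst h1
    exact h2
  have hD2 : ∀ i k : ℕ, i < g → i • b + k • a - b ∈ DD a b jj g →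
      (∃ i', i = i' + 1 ∧ k ≡ jj i' [MOD r]) ∨ (i = 0 ∧ k ≡ c + jj (g - 1) [MOD r]) := by
    rintro i k hi ⟨i', hi', h⟩
    have h3 : i • b + k • a = (i' + 1) • b + jj i' • a := by
      rw [sub_eq_iff_eq_add] at h
      rw [h, succ_nsmul]; abel
    rcases Nat.lt_or_ge (i' + 1) g with h4 | h4
    · obtain ⟨h1, h2⟩ := huniq i (i' + 1) k (jj i') hi h4 h3
      exact Or.inl ⟨i', h1, h2⟩
    · right
      have h5 : i' = g - 1 := by omega
      have h6 : i' + 1 = g := by omega
      rw [h6, hc, ← add_nsmul, ← zero_add ((c + jj i') • a), ← zero_nsmul b] at h3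
      obtain ⟨h1, h2⟩ := huniq i 0 k (c + jj i') hi (by omega) h3
      rw [h5] at h2
      exact ⟨h1, h2⟩
  -- arcs
  have harc : ∀ i l l' : ℕ, i < g → l ≤ l' →
      (∀ t, l ≤ t → t < l' → ¬ t ≡ jj i [MOD r] ∧ (∀ i', i = i' + 1 → ¬ t ≡ jj i' [MOD r]) ∧
        (i = 0 → ¬ t ≡ c + jj (g - 1) [MOD r])) →
      F.Reachable (i • b + l • a) (i • b + l' • a) := by
    intro i l l' hi hll h
    refine Fc_arc _ hll fun t h1 h2 => ⟨fun h3 => ?_, fun h3 => ?_⟩
    · exact (h t h1 h2).1 (hD1 i t hi h3)
    · rcases hD2 i t hi h3 with ⟨i', h4, h5⟩ | ⟨h4, h5⟩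
      · exact (h t h1 h2).2.1 i' h4 h5
      · exact (h t h1 h2).2.2 h4 h5
  have hadd : ∀ q : ℕ, q + r ≡ q [MOD r] := by
    intro q
    show (q + r) % r = q % r
    rw [Nat.add_mod_right]
  -- the two roots
  obtain ⟨t0, ht0, hk0⟩ := exists_win (show 0 < r by omega) (c + jj (g - 1)) (jj 0 + 1)
  have ht0' : t0 + 1 < r := by
    rcases Nat.lt_or_ge (t0 + 1) r with h | h
    · exact h
    · exfalso
      have h1 : t0 + 1 = r := by omega
      have h2 : jj 0 + 1 + t0 = jj 0 + r := by omega
      rw [h2] at hk0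
      exact he (hk0.symm.trans (hadd _))
  have root1 : ∀ k : ℕ, jj 0 + 1 ≤ k → k ≤ jj 0 + 1 + t0 →
      F.Reachable ((jj 0 + 1) • a) (k • a) := by
    intro k h1 h2
    have h3 := harc 0 (jj 0 + 1) k (by omega) h1 (fun t h4 h5 => ⟨fun h6 =>
      mod_gap h6 (by omega) (by omega), fun i' h6 => by omega, fun _ h6 =>
      mod_gap (hk0.trans h6.symm) (by omega) (by omega)⟩)
    simp only [zero_nsmul, zero_add] at h3
    exact h3
  have root0 : ∀ k : ℕ, jj 0 + 2 + t0 ≤ k → k ≤ jj 0 + r →
      F.Reachable (jj 0 • a) (k • a) := by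
    intro k h1 h2
    have h3 := harc 0 k (jj 0 + r) (by omega) h2 (fun t h4 h5 => ⟨fun h6 =>
      mod_gap h6 (by omega) (by omega), fun i' h6 => by omega, fun _ h6 =>
      mod_gap (h6.trans hk0.symm) (by omega) (by omega)⟩)
    simp only [zero_nsmul, zero_add] at h3
    rw [nsmul_modEq hra (hadd (jj 0))] at h3
    exact h3.symm
  let ρ : ℕ → A := fun t => (jj 0 + t % 2) • a
  have hρ : ∀ t, ρ (t + 2) = ρ t := by
    intro t
    show (jj 0 + (t + 2) % 2) • a = (jj 0 + t % 2) • a
    rw [Nat.add_mod_right]
  have hrow : ∀ i, i < g → F.Reachable (ρ i) (i • b + jj i • a) ∧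
      F.Reachable (ρ (i + 1)) (i • b + (jj i + 1) • a) ∧
      ∀ k : ℕ, F.Reachable (ρ 0) (i • b + k • a) ∨ F.Reachable (ρ 1) (i • b + k • a) := by
    intro i
    induction i with
    | zero =>
      intro hi
      refine ⟨?_, ?_, ?_⟩
      · show F.Reachable ((jj 0 + 0 % 2) • a) _
        rw [zero_nsmul, zero_add]
        exact Reachable.refl _
      · have e1 : ρ (0 + 1) = (0 : ℕ) • b + (jj 0 + 1) • a := by
          rw [zero_nsmul, zero_add ((jj 0 + 1) • a)]
        rw [e1]
      · intro k
        obtain ⟨t, ht, hk⟩ := exists_win (show 0 < r by omega) k (jj 0 + 1)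
        rw [zero_nsmul, zero_add, ← nsmul_modEq hra hk]
        rcases Nat.lt_or_ge t0 t with h1 | h1
        · left
          exact root0 _ (by omega) (by omega)
        · right
          exact root1 _ (by omega) (by omega)
    | succ i ih =>
      intro hi
      obtain ⟨ih1, ih2, ih3⟩ := ih (by omega)
      have hx : i • b + jj i • a ∈ DD a b jj g := ⟨i, by omega, rfl⟩
      have hp : F.Reachable (ρ i) ((i + 1) • b + jj i • a) := by
        have h1 := Fc_b (a := a) (b := b) hx
        have e1 : i • b + jj i • a + b = (i + 1) • b + jj i • a := by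
          rw [succ_nsmul]; abel
        rw [e1] at h1
        exact ih1.trans h1
      have hp' : F.Reachable (ρ (i + 1)) ((i + 1) • b + (jj i + 1) • a) := by
        have h1 := Fc_b' (a := a) (b := b) hx
        have e1 : i • b + jj i • a + a + b = (i + 1) • b + (jj i + 1) • a := by
          rw [succ_nsmul, succ_nsmul]; abel
        have e2 : i • b + jj i • a + a = i • b + (jj i + 1) • a := by
          rw [succ_nsmul]; abel
        rw [e1, e2] at h1
        exact ih2.trans h1
      have hor : ∀ (t : ℕ) (z : A), F.Reachable (ρ t) z →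
          F.Reachable (ρ 0) z ∨ F.Reachable (ρ 1) z := by
        intro t z hz
        rcases Nat.mod_two_eq_zero_or_one t with h | h
        · left
          have : ρ t = ρ 0 := by show (jj 0 + t % 2) • a = (jj 0 + 0 % 2) • a; rw [h]
          rwa [this] at hz
        · right
          have : ρ t = ρ 1 := by show (jj 0 + t % 2) • a = (jj 0 + 1 % 2) • a; rw [h]
          rwa [this] at hz
      rcases hjj i with hj | hj
      · -- increasing
        have hA : ∀ k : ℕ, jj i + 1 < k → k ≤ jj i + r →
            F.Reachable (ρ i) ((i + 1) • b + k • a) := by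
          intro k h1 h2
          have h3 := harc (i + 1) k (jj i + r) hi h2 (fun t' h1 h2 => by
            refine ⟨fun h3 => ?_, fun i' h3 h4 => ?_, fun h3 => by omega⟩
            · rw [hj] at h3
              exact mod_gap h3 (by omega) (by omega)
            · have : i' = i := by omega
              subst this
              exact mod_gap h4 (by omega) (by omega))
          rw [nsmul_modEq hra (hadd (jj i))] at h3
          exact hp.trans h3.symm
        refine ⟨?_, ?_, ?_⟩
        · rw [hj]; exact hp'
        · rw [hρ, hj]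
          exact hA _ (by omega) (by omega)
        · intro k
          obtain ⟨t, ht, hk⟩ := exists_win (show 0 < r by omega) k (jj i + 1)
          rw [← nsmul_modEq hra hk]
          rcases Nat.eq_zero_or_pos t with h0 | h0
          · subst h0
            exact hor _ _ hp'
          · exact hor _ _ (hA _ (by omega) (by omega))
      · -- decreasing
        have hA : ∀ k : ℕ, jj (i + 1) + 2 ≤ k → k ≤ jj (i + 1) + r →
            F.Reachable (ρ (i + 1)) ((i + 1) • b + k • a) := by
          intro k h1 h2
          have h3 := harc (i + 1) (jj (i + 1) + 2) k hi h1 (fun t' h1 h2 => by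
            refine ⟨fun h3 => ?_, fun i' h3 h4 => ?_, fun h3 => by omega⟩
            · exact mod_gap h3 (by omega) (by omega)
            · have : i' = i := by omega
              subst this
              exact mod_gap h4 (by omega) (by omega))
          have e1 : jj i + 1 = jj (i + 1) + 2 := by omega
          rw [e1] at hp'
          exact hp'.trans h3
        refine ⟨?_, ?_, ?_⟩
        · rw [← nsmul_modEq hra (hadd (jj (i + 1)))]
          exact hA _ (by omega) le_rfl
        · rw [hρ, ← hj]
          exact hp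
        · intro k
          obtain ⟨t, ht, hk⟩ := exists_win (show 0 < r by omega) k (jj (i + 1) + 1)
          rw [← nsmul_modEq hra hk]
          rcases Nat.eq_zero_or_pos t with h0 | h0
          · subst h0
            rw [add_zero, ← hj]
            exact hor _ _ hp
          · exact hor _ _ (hA _ (by omega) (by omega))
  -- the two roots are connected
  have hfin : F.Reachable (ρ 0) (ρ 1) := by
    obtain ⟨h1, _, _⟩ := hrow (g - 1) (by omega)
    have hx : (g - 1) • b + jj (g - 1) • a ∈ DD a b jj g := ⟨g - 1, by omega, rfl⟩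
    have h2 := Fc_b (a := a) (b := b) hx
    have e1 : (g - 1) • b + jj (g - 1) • a + b = (c + jj (g - 1)) • a := by
      have e2 : (g - 1) • b + jj (g - 1) • a + b = (g - 1 + 1) • b + jj (g - 1) • a := by
        rw [succ_nsmul]; abel
      have e3 : g - 1 + 1 = g := by omega
      rw [e2, e3, hc, ← add_nsmul]
    have e4 : ρ (g - 1) = ρ 0 := by
      show (jj 0 + (g - 1) % 2) • a = (jj 0 + 0 % 2) • a
      have : (g - 1) % 2 = 0 := by omega
      rw [this]
    rw [e1, ← nsmul_modEq hra hk0] at h2
    rw [e4] at h1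
    exact (h1.trans h2).trans (root1 _ (by omega) le_rfl).symm
  have hall : ∀ x : A, F.Reachable (ρ 0) x := by
    intro x
    obtain ⟨i, hi, k, rfl⟩ := hcov x
    rcases (hrow i hi).2.2 k with h | h
    · exact h
    · exact hfin.trans h
  exact (hall v).symm.trans (hall w)

end

end Pool.Agent.Y647.LAC
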