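import Pool.Agent.Y647.LAC.Chain

set_option autoImplicit false

/-!
The second switched two-factor is connected: the case of at least three cosets, even excess.
-/

namespace Pool.Agent.Y647.LAC

open Finset SimpleGraph H931R3.LA Pool.Agent.W111.LAR Pool.Agent.TH486.LAC

section

variable {A : Type} [AddCommGroup A]

/-- The columns: first alternating between `0` and `1`, then increasing. -/
def stair (m : ℕ) (i : ℕ) : ℕ := if i < 2 * m then i % 2 else i + 2 - 2 * m

theorem stair_step (m : ℕ) (hm : 1 ≤ m) (i : ℕ) :
    stair m (i + 1) = stair m i + 1 ∨ stair m i = stair m (i + 1) + 1 := by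
  unfold stair
  split_ifs <;> omega

theorem many {a b : A} {h L m s : ℕ} (hh : 3 ≤ h) (hm : 1 ≤ m) (hL : L + 3 = 2 * m + h)
    (hLs : L ≤ s) (hsb : s • b = 0)
    (hcov : ∀ x : A, ∃ j < h, ∃ l < s, x = j • a + l • b)
    (huniq : ∀ j j' l l' : ℕ, j < h → j' < h → j • a + l • b = j' • a + l' • b →
      j = j' ∧ l ≡ l' [MOD s]) (v w : A) :
    (Fc b a (DD a b (stair m) L)).Reachable v w := by
  set D := DD a b (stair m) L with hDdef
  set F := Fc b a D with hF
  have hsbd : ∀ i, i < L → stair m i + 1 < h := by
    intro i hi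
    unfold stair
    split_ifs <;> omega
  have hret : ∀ j l, j < h → l < s → (l < L → stair m l ≠ j ∧ stair m l + 1 ≠ j) →
      j • a + l • b ∉ D ∧ j • a + l • b - a ∉ D := by
    intro j l hj hl hne
    refine ⟨?_, ?_⟩
    · rintro ⟨i, hi, h1⟩
      have h1' : j • a + l • b = stair m i • a + i • b := by
        rw [add_comm (stair m i • a)]; exact h1
      obtain ⟨h2, h3⟩ := huniq _ _ _ _ hj (by have := hsbd i hi; omega) h1'
      have h4 : l = i := Nat.ModEq.eq_of_lt_of_lt h3 hl (by omega)
      subst h4
      exact (hne hi).1 h2.symm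
    · rintro ⟨i, hi, h1⟩
      have h1' : j • a + l • b = (stair m i + 1) • a + i • b := by
        rw [sub_eq_iff_eq_add] at h1
        rw [h1, succ_nsmul]; abel
      obtain ⟨h2, h3⟩ := huniq _ _ _ _ hj (hsbd i hi) h1'
      have h4 : l = i := Nat.ModEq.eq_of_lt_of_lt h3 hl (by omega)
      subst h4
      exact (hne hi).2 h2.symm
  have harc : ∀ j l l' : ℕ, j < h → l ≤ l' → l' ≤ s →
      (∀ t, l ≤ t → t < l' → t < L → stair m t ≠ j ∧ stair m t + 1 ≠ j) →
      F.Reachable (j • a + l • b) (j • a + l' • b) := by
    intro j l l' hj hll hl' hne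
    exact Fc_arc _ hll (fun t h1 h2 => hret j t hj (by omega) (hne t h1 h2))
  have hcor : ∀ i, i < L → stair m i • a + i • b ∈ D := fun i hi =>
    ⟨i, hi, add_comm _ _⟩
  -- switched edges
  have hsw : ∀ i, i < L → F.Reachable (stair m i • a + i • b) ((stair m i + 1) • a + i • b) := by
    intro i hi
    have h1 := Fc_b (a := b) (b := a) (hcor i hi)
    have e1 : stair m i • a + i • b + a = (stair m i + 1) • a + i • b := by
      rw [succ_nsmul]; abel
    rwa [e1] at h1
  have hsw' : ∀ i, i < L → F.Reachable (stair m i • a + (i + 1) • b)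
      ((stair m i + 1) • a + (i + 1) • b) := by
    intro i hi
    have h1 := Fc_b' (a := b) (b := a) (hcor i hi)
    have e1 : stair m i • a + i • b + b + a = (stair m i + 1) • a + (i + 1) • b := by
      rw [succ_nsmul, succ_nsmul]; abel
    have e2 : stair m i • a + i • b + b = stair m i • a + (i + 1) • b := by
      rw [succ_nsmul]; abel
    rwa [e1, e2] at h1
  have st0 : ∀ i, i < 2 * m → i % 2 = 0 → stair m i = 0 := by
    intro i h1 h2; unfold stair; rw [if_pos h1, h2]
  have st1 : ∀ i, i < 2 * m → i % 2 = 1 → stair m i = 1 := by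
    intro i h1 h2; unfold stair; rw [if_pos h1, h2]
  have st2 : ∀ i, 2 * m ≤ i → stair m i = i + 2 - 2 * m := by
    intro i h1; unfold stair; rw [if_neg (by omega)]
  let R : ℕ → ℕ → Prop := fun j l => F.Reachable 0 (j • a + l • b)
  have hR : ∀ j l, R j l ↔ F.Reachable 0 (j • a + l • b) := fun j l => Iff.rfl
  have R00 : R 0 0 := by
    rw [hR, zero_nsmul, zero_nsmul, add_zero]
  have Rs : ∀ j, R j s ↔ R j 0 := by
    intro j
    rw [hR, hR, hsb, zero_nsmul]
  -- the first coset
  have K0 : ∀ l, 2 * m ≤ l → l ≤ s → R 0 l := by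
    intro l h1 h2
    exact ((Rs 0).2 R00).trans (harc 0 l s (by omega) h2 le_rfl (fun t h3 h4 _ => by
      rw [st2 t (by omega)]; omega)).symm
  have R10 : R 1 0 := by
    have h1 := hsw 0 (by omega)
    rw [st0 0 (by omega) rfl] at h1
    exact R00.trans h1
  have K1 : ∀ l, 2 * m ≤ l → l ≤ s → R 1 l := by
    intro l h1 h2
    exact ((Rs 1).2 R10).trans (harc 1 l s (by omega) h2 le_rfl (fun t h3 h4 _ => by
      rw [st2 t (by omega)]; omega)).symm
  have R2m : R 2 (2 * m) := by
    have h1 := hsw' (2 * m - 1) (by omega)
    rw [st1 (2 * m - 1) (by omega) (by omega)] at h1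
    have e1 : 2 * m - 1 + 1 = 2 * m := by omega
    rw [e1] at h1
    exact (K1 (2 * m) le_rfl (by omega)).trans h1
  -- the snake
  have link01 : ∀ i, 1 ≤ i → i ≤ 2 * m - 1 →
      F.Reachable (0 • a + i • b) (1 • a + i • b) := by
    intro i h1 h2
    rcases Nat.mod_two_eq_zero_or_one i with h | h
    · have h3 := hsw i (by omega)
      rwa [st0 i (by omega) h] at h3
    · have h3 := hsw' (i - 1) (by omega)
      rw [st0 (i - 1) (by omega) (by omega)] at h3
      have e1 : i - 1 + 1 = i := by omega
      rwa [e1] at h3
  have link12 : ∀ i, 1 ≤ i → i ≤ 2 * m - 1 →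
      F.Reachable (1 • a + i • b) (2 • a + i • b) := by
    intro i h1 h2
    rcases Nat.mod_two_eq_zero_or_one i with h | h
    · have h3 := hsw' (i - 1) (by omega)
      rw [st1 (i - 1) (by omega) (by omega)] at h3
      have e1 : i - 1 + 1 = i := by omega
      rwa [e1] at h3
    · have h3 := hsw i (by omega)
      rwa [st1 i (by omega) h] at h3
  have snake : ∀ e i, i + e + 1 = 2 * m → 1 ≤ i → R 0 i ∧ R 1 i ∧ R 2 i := by
    intro e
    induction e with
    | zero =>
      intro i h1 h2
      have h3 := harc 0 i (2 * m) (by omega) (by omega) (by omega) (fun t h4 h5 h6 => by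
        have : t = i := by omega
        subst this
        rw [st1 t (by omega) (by omega)]; omega)
      have h4 : R 0 i := (K0 (2 * m) le_rfl (by omega)).trans h3.symm
      have h5 : R 1 i := h4.trans (link01 i h2 (by omega))
      exact ⟨h4, h5, h5.trans (link12 i h2 (by omega))⟩
    | succ e ih =>
      intro i h1 h2
      obtain ⟨h3, h4, h5⟩ := ih (i + 1) (by omega) (by omega)
      rcases Nat.mod_two_eq_zero_or_one i with h | h
      · have h6 := harc 2 i (i + 1) (by omega) (by omega) (by omega) (fun t h4 h5 h6 => by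
          have : t = i := by omega
          subst this
          rw [st0 t (by omega) (by omega)]; omega)
        have h7 : R 2 i := h5.trans h6.symm
        have h8 : R 1 i := h7.trans (link12 i h2 (by omega)).symm
        exact ⟨h8.trans (link01 i h2 (by omega)).symm, h8, h7⟩
      · have h6 := harc 0 i (i + 1) (by omega) (by omega) (by omega) (fun t h4 h5 h6 => by
          have : t = i := by omega
          subst this
          rw [st1 t (by omega) (by omega)]; omega)
        have h7 : R 0 i := h3.trans h6.symm
        have h8 : R 1 i := h7.trans (link01 i h2 (by omega))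
        exact ⟨h7, h8, h8.trans (link12 i h2 (by omega))⟩
  have R20 : R 2 0 := by
    have h1 := (snake (2 * m - 2) 1 (by omega) le_rfl).2.2
    have h2 := harc 2 0 1 (by omega) (by omega) (by omega) (fun t h4 h5 h6 => by
      have : t = 0 := by omega
      subst this
      rw [st0 0 (by omega) rfl]; omega)
    exact h1.trans h2.symm
  have K2 : ∀ l, l ≤ s → R 2 l := by
    intro l hl
    rcases Nat.eq_zero_or_pos l with h0 | h0
    · rw [h0]; exact R20
    rcases Nat.lt_or_ge l (2 * m) with h1 | h1
    · exact (snake (2 * m - 1 - l) l (by omega) h0).2.2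
    rcases Nat.eq_or_lt_of_le h1 with h2 | h2
    · rw [← h2]; exact R2m
    · exact ((Rs 2).2 R20).trans (harc 2 l s (by omega) hl le_rfl (fun t h3 h4 h5 => by
        rw [st2 t (by omega)]; omega)).symm
  -- the chain
  have chain' : ∀ j, 2 ≤ j → j < h → ∀ l, l ≤ s → R j l := by
    intro j hj
    induction j, hj using Nat.le_induction with
    | base => intro _; exact K2
    | succ j hj ih =>
      intro hjh l hl
      have ih' := ih (by omega)
      have hp : stair m (2 * m + j - 2) = j := by
        rw [st2 _ (by omega)]; omega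
      have h1 := hsw (2 * m + j - 2) (by omega)
      have h2 := hsw' (2 * m + j - 2) (by omega)
      rw [hp] at h1 h2
      have Rp : R (j + 1) (2 * m + j - 2) := (ih' _ (by omega)).trans h1
      have Rp' : R (j + 1) (2 * m + j - 2 + 1) := (ih' _ (by omega)).trans h2
      have hlow : ∀ l, l ≤ 2 * m + j - 2 → R (j + 1) l := by
        intro l hl
        exact Rp.trans (harc (j + 1) l (2 * m + j - 2) hjh hl (by omega)
          (fun t h3 h4 h5 => by
            rcases Nat.lt_or_ge t (2 * m) with h6 | h6
            · rcases Nat.mod_two_eq_zero_or_one t with h7 | h7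
              · rw [st0 t h6 h7]; omega
              · rw [st1 t h6 h7]; omega
            · rw [st2 t h6]; omega)).symm
      rcases Nat.lt_or_ge (2 * m + j - 2) l with h3 | h3
      · rcases Nat.eq_or_lt_of_le (show 2 * m + j - 2 + 1 ≤ l from h3) with h4 | h4
        · rw [← h4]; exact Rp'
        · exact ((Rs (j + 1)).2 (hlow 0 (by omega))).trans
            (harc (j + 1) l s hjh hl le_rfl (fun t h5 h6 h7 => by
              rw [st2 t (by omega)]; omega)).symm
      · exact hlow l h3
  have hall : ∀ x : A, F.Reachable 0 x := by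
    intro x
    obtain ⟨j, hj, l, hl, rfl⟩ := hcov x
    rcases Nat.lt_or_ge j 2 with h1 | h1
    · rcases Nat.lt_or_ge l (2 * m) with h2 | h2
      · rcases Nat.eq_zero_or_pos l with h0 | h0
        · subst h0
          rcases Nat.eq_zero_or_pos j with h3 | h3
          · rw [h3]; exact R00
          · have : j = 1 := by omega
            rw [this]; exact R10
        · have h4 := snake (2 * m - 1 - l) l (by omega) h0
          rcases Nat.eq_zero_or_pos j with h3 | h3
          · rw [h3]; exact h4.1
          · have : j = 1 := by omega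
            rw [this]; exact h4.2.1
      · rcases Nat.eq_zero_or_pos j with h3 | h3
        · rw [h3]; exact K0 l h2 hl.le
        · have : j = 1 := by omega
          rw [this]; exact K1 l h2 hl.le
    · exact chain' j h1 hj l hl.le
  exact (hall v).symm.trans (hall w)

end

end Pool.Agent.Y647.LAC
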