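import Pool.Agent.Y647.LAC.One
import Pool.Agent.Y647.LAC.Many

set_option autoImplicit false

/-!
Coordinates in an abelian group with two generators.
-/

namespace Pool.Agent.Y647.LAC

open Finset SimpleGraph H931R3.LA Pool.Agent.W111.LAR Pool.Agent.TH486.LAC

section

variable {A : Type} [AddCommGroup A]

/-- The order of `b` modulo the multiples of `a`. -/
noncomputable def oo (a b : A) : ℕ :=
  addOrderOf (QuotientAddGroup.mk b : A ⧸ AddSubgroup.zmultiples a)

theorem oo_dvd {a b : A} {i : ℕ} : oo a b ∣ i ↔ i • b ∈ AddSubgroup.zmultiples a := by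
  unfold oo
  rw [addOrderOf_dvd_iff_nsmul_eq_zero, ← QuotientAddGroup.mk_nsmul, QuotientAddGroup.eq_zero_iff]

theorem oo_pos [Finite A] (a b : A) : 0 < oo a b := by
  have h : oo a b ∣ addOrderOf b := oo_dvd.2 (by
    rw [addOrderOf_nsmul_eq_zero]; exact zero_mem _)
  exact Nat.pos_of_dvd_of_pos h (addOrderOf_pos b)

theorem oo_neg (a b : A) : oo (-a) b = oo a b := by
  apply Nat.dvd_antisymm
  · rw [oo_dvd, AddSubgroup.zmultiples_neg, ← oo_dvd]
  · rw [oo_dvd, ← AddSubgroup.zmultiples_neg, ← oo_dvd]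

theorem exists_nat_smul [Finite A] {a x : A} (h : x ∈ AddSubgroup.zmultiples a) :
    ∃ k < addOrderOf a, x = k • a := by
  classical
  have h1 : x ∈ AddSubmonoid.multiples a := by
    rwa [← mem_multiples_iff_mem_zmultiples] at h
  rw [mem_multiples_iff_mem_range_addOrderOf] at h1
  obtain ⟨k, hk, rfl⟩ := Finset.mem_image.1 h1
  exact ⟨k, Finset.mem_range.1 hk, rfl⟩

/-- `a` and `b` generate the group. -/
def Gen (a b : A) : Prop := ∀ x : A, ∃ i k : ℕ, x = i • b + k • a

theorem Gen.symm {a b : A} (h : Gen a b) : Gen b a := by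
  intro x
  obtain ⟨i, k, rfl⟩ := h x
  exact ⟨k, i, add_comm _ _⟩

theorem Gen.cov [Finite A] {a b : A} (h : Gen a b) (x : A) :
    ∃ i < oo a b, ∃ k < addOrderOf a, x = i • b + k • a := by
  obtain ⟨i, k, rfl⟩ := h x
  have h1 : (oo a b * (i / oo a b)) • b ∈ AddSubgroup.zmultiples a :=
    oo_dvd.1 (Dvd.intro _ rfl)
  have h2 : (oo a b * (i / oo a b)) • b + k • a ∈ AddSubgroup.zmultiples a :=
    add_mem h1 (AddSubgroup.nsmul_mem_zmultiples _ _)
  obtain ⟨k', hk', h3⟩ := exists_nat_smul h2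
  refine ⟨i % oo a b, Nat.mod_lt _ (oo_pos a b), k', hk', ?_⟩
  rw [← h3, ← add_assoc, ← add_nsmul, Nat.mod_add_div]

theorem coord_uniq {a b : A} {i i' k k' : ℕ} (hi : i < oo a b) (hi' : i' < oo a b)
    (h : i • b + k • a = i' • b + k' • a) : i = i' ∧ k ≡ k' [MOD addOrderOf a] := by
  have key : ∀ i i' k k' : ℕ, i ≤ i' → i' < oo a b → i • b + k • a = i' • b + k' • a → i = i' := by
    intro i i' k k' hii hi' h
    have h1 : (i' - i) • b ∈ AddSubgroup.zmultiples a := by
      have e1 : (i' - i) • b = k • a - k' • a := by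
        obtain ⟨e, rfl⟩ := Nat.exists_eq_add_of_le hii
        rw [add_nsmul, add_assoc] at h
        have h2 := add_left_cancel h
        rw [Nat.add_sub_cancel_left, h2, add_sub_cancel_right]
      rw [e1]
      exact sub_mem (AddSubgroup.nsmul_mem_zmultiples _ _) (AddSubgroup.nsmul_mem_zmultiples _ _)
    have h2 := oo_dvd.2 h1
    rcases Nat.eq_zero_or_pos (i' - i) with h3 | h3
    · omega
    · have := Nat.le_of_dvd h3 h2
      omega
  have h1 : i = i' := by
    rcases le_total i i' with h2 | h2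
    · exact key i i' k k' h2 hi' h
    · exact (key i' i k' k h2 hi h.symm).symm
  subst h1
  refine ⟨rfl, ?_⟩
  have h2 := add_left_cancel h
  exact (nsmul_eq_nsmul_iff_modEq).1 h2

theorem oo_dvd_order (a b : A) : oo a b ∣ addOrderOf b :=
  oo_dvd.2 (by rw [addOrderOf_nsmul_eq_zero]; exact zero_mem _)

/-- Two spanning connected graphs of maximum degree two covering the Cayley graph. -/
def Two (a b : A) : Prop :=
  ∃ P Q : SimpleGraph A, (∀ v, (P.neighborSet v).ncard ≤ 2 ∧ (Q.neighborSet v).ncard ≤ 2) ∧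
    (∀ v w, P.Reachable v w ∧ Q.Reachable v w) ∧
    ∀ v w, (P ⊔ Q).Adj v w ↔ v ≠ w ∧ (w = v + a ∨ v = w + a ∨ w = v + b ∨ v = w + b)

theorem Two.symm {a b : A} (h : Two a b) : Two b a := by
  obtain ⟨P, Q, h1, h2, h3⟩ := h
  refine ⟨P, Q, h1, h2, fun v w => ?_⟩
  rw [h3]
  tauto

theorem Two.neg {a b : A} (h : Two (-a) b) : Two a b := by
  obtain ⟨P, Q, h1, h2, h3⟩ := h
  refine ⟨P, Q, h1, h2, fun v w => ?_⟩
  rw [h3]
  have e1 : w = v + -a ↔ v = w + a := by
    rw [← sub_eq_add_neg, eq_sub_iff_add_eq, eq_comm]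
  have e2 : v = w + -a ↔ w = v + a := by
    rw [← sub_eq_add_neg, eq_sub_iff_add_eq, eq_comm]
  rw [e1, e2]
  tauto

theorem two_of {a b : A} {D : Set A} (hD : ∀ x ∈ D, x + a ∉ D ∧ x + b ∉ D)
    (h1 : ∀ v w, (Fc a b D).Reachable v w) (h2 : ∀ v w, (Fc b a D).Reachable v w) : Two a b :=
  ⟨Fc a b D, Fc b a D, fun v => ⟨Fc_deg hD v, Fc_deg (fun x hx => ⟨(hD x hx).2, (hD x hx).1⟩) v⟩,
    fun v w => ⟨h1 v w, h2 v w⟩, Fc_sup a b D⟩

theorem DD_cond {a b : A} {jj : ℕ → ℕ} {L : ℕ} (hL : L < oo a b) (hr : 2 ≤ addOrderOf a)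
    (hjj : ∀ i, jj (i + 1) = jj i + 1 ∨ jj i = jj (i + 1) + 1) :
    ∀ x ∈ DD a b jj L, x + a ∉ DD a b jj L ∧ x + b ∉ DD a b jj L := by
  rintro x ⟨i, hi, rfl⟩
  refine ⟨?_, ?_⟩
  · rintro ⟨i', hi', h⟩
    have h1 : i • b + (jj i + 1) • a = i' • b + jj i' • a := by
      rw [← h, succ_nsmul]; abel
    obtain ⟨h2, h3⟩ := coord_uniq (by omega) (by omega) h1
    subst h2
    exact mod_gap h3 (by omega) (by omega)
  · rintro ⟨i', hi', h⟩
    have h1 : (i + 1) • b + jj i • a = i' • b + jj i' • a := by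
      rw [← h, succ_nsmul]; abel
    obtain ⟨h2, h3⟩ := coord_uniq (by omega) (by omega) h1
    subst h2
    exact jj_step jj hjj hr i h3.symm

theorem mod2_step (i : ℕ) : (i + 1) % 2 = i % 2 + 1 ∨ i % 2 = (i + 1) % 2 + 1 := by omega

/-- Both elements generate the group. -/
theorem two_trivial [Finite A] {a b : A} (hg : Gen a b) (h1 : oo a b = 1) (h2 : oo b a = 1) :
    Two a b := by
  have key : ∀ a b : A, Gen a b → oo a b = 1 → ∀ v w, (Fc a b (∅ : Set A)).Reachable v w := by
    intro a b hg h1 v w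
    have h3 : ∀ x : A, (Fc a b (∅ : Set A)).Reachable 0 x := by
      intro x
      obtain ⟨i, hi, k, hk, rfl⟩ := hg.cov x
      have hi0 : i = 0 := by omega
      subst hi0
      have h4 := Fc_arc (a := a) (b := b) (D := ∅) 0 (Nat.zero_le k) (fun t _ _ => by simp)
      simpa using h4
    exact (h3 v).symm.trans (h3 w)
  exact two_of (D := ∅) (by simp) (key a b hg h1) (key b a hg.symm h2)

/-- One element generates the group. -/
theorem two_one [Finite A] {a b : A} (hg : Gen a b) (h1 : 2 ≤ oo a b) (h2 : oo b a = 1)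
    (ha : 3 ≤ addOrderOf a) : Two a b := by
  have hn := addOrderOf_nsmul_eq_zero b
  have hcov : ∀ x : A, ∃ l < addOrderOf b, x = l • b := by
    intro x
    obtain ⟨i, hi, k, hk, rfl⟩ := hg.symm.cov x
    have hi0 : i = 0 := by omega
    subst hi0
    exact ⟨k, hk, by simp⟩
  have huniq : ∀ l l' : ℕ, l < addOrderOf b → l' < addOrderOf b → l • b = l' • b → l = l' := by
    intro l l' hl hl' h
    exact Nat.ModEq.eq_of_lt_of_lt ((nsmul_eq_nsmul_iff_modEq).1 h) hl hl'
  -- the main case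
  have main : ∀ (a : A) (α : ℕ), Gen a b → 2 ≤ oo a b → 3 ≤ addOrderOf a → a = α • b →
      2 * α < addOrderOf b → Two a b := by
    intro a α hg h1 ha hα h2α
    have hgα : oo a b ∣ α := oo_dvd.2 (by rw [← hα]; exact AddSubgroup.mem_zmultiples a)
    have hgn : oo a b ∣ addOrderOf b := oo_dvd_order a b
    have hα0 : 0 < α := by
      rcases Nat.eq_zero_or_pos α with h | h
      · rw [h, zero_nsmul] at hα
        rw [hα, addOrderOf_zero] at ha
        omega
      · exact h
    have h3 : oo a b ≤ α := Nat.le_of_dvd hα0 hgα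
    have h4 : oo a b ∣ addOrderOf b - 2 * α := Nat.dvd_sub hgn (Dvd.dvd.mul_left hgα 2)
    have h5 : oo a b ≤ addOrderOf b - 2 * α := Nat.le_of_dvd (by omega) h4
    have hL : oo a b - 1 + 1 = oo a b := by omega
    refine two_of (DD_cond (jj := fun i => i % 2) (L := oo a b - 1) (by omega) (by omega)
      mod2_step) ?_ ?_
    · exact chain hL _ (addOrderOf_nsmul_eq_zero a) ha (fun x => by
        obtain ⟨i, hi, k, _, h⟩ := hg.cov x
        exact ⟨i, hi, k, h⟩) (fun i i' k k' hi hi' h => coord_uniq hi hi' h) mod2_step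
    · exact one_gen hL hn hcov huniq hα h1 h3 (by omega)
  obtain ⟨α, hα, hα'⟩ := hcov a
  rcases Nat.lt_or_ge (2 * α) (addOrderOf b) with h3 | h3
  · exact main a α hg h1 ha hα' h3
  · have h4 : 2 * α ≠ addOrderOf b := by
      intro h
      have : 2 • a = 0 := by
        rw [hα', smul_smul, h, hn]
      have h5 := addOrderOf_dvd_of_nsmul_eq_zero this
      have := Nat.le_of_dvd (by norm_num) h5
      omega
    refine Two.neg (main (-a) (addOrderOf b - α) ?_ (by rw [oo_neg]; exact h1)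
      (by rw [addOrderOf_neg]; exact ha) ?_ (by omega))
    · intro x
      obtain ⟨l, _, rfl⟩ := hcov x
      exact ⟨l, 0, by simp⟩
    · rw [neg_eq_iff_add_eq_zero, hα', ← add_nsmul]
      have : α + (addOrderOf b - α) = addOrderOf b := by omega
      rw [this, hn]

/-- No element generates the group, even excess. -/
theorem two_many [Finite A] {a b : A} (hg : Gen a b) (h1 : oo b a ≤ oo a b) (h2 : 3 ≤ oo b a)
    (he : (oo a b - oo b a) % 2 = 0) : Two a b := by
  have hr : oo b a ∣ addOrderOf a := oo_dvd_order b a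
  have hs : oo a b ∣ addOrderOf b := oo_dvd_order a b
  have hr3 := Nat.le_of_dvd (addOrderOf_pos a) hr
  have hs3 := Nat.le_of_dvd (addOrderOf_pos b) hs
  obtain ⟨m, hm⟩ : ∃ m, oo a b - oo b a + 2 = 2 * m := ⟨(oo a b - oo b a + 2) / 2, by omega⟩
  have hL : oo a b - 1 + 1 = oo a b := by omega
  refine two_of (DD_cond (jj := stair m) (L := oo a b - 1) (by omega) (by omega)
      (stair_step m (by omega))) ?_ ?_
  · exact chain hL _ (addOrderOf_nsmul_eq_zero a) (by omega) (fun x => by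
        obtain ⟨i, hi, k, _, h⟩ := hg.cov x
        exact ⟨i, hi, k, h⟩) (fun i i' k k' hi hi' h => coord_uniq hi hi' h)
        (stair_step m (by omega))
  · exact many (h := oo b a) (m := m) (s := addOrderOf b) h2 (by omega) (by omega) (by omega)
      (addOrderOf_nsmul_eq_zero b) hg.symm.cov
      (fun j j' l l' hj hj' h => coord_uniq hj hj' h)

/-- The case of odd order. -/
theorem two_odd [Finite A] (hodd : Odd (Nat.card A)) {a b : A} (hg : Gen a b) (ha : a ≠ 0)
    (hb : b ≠ 0) : Two a b := by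
  have ho : ∀ x : A, x ≠ 0 → 3 ≤ addOrderOf x := by
    intro x hx
    have h1 := addOrderOf_dvd_natCard x
    have h2 : Odd (addOrderOf x) := Odd.of_dvd_nat hodd h1
    have h3 : addOrderOf x ≠ 1 := fun h => hx (AddMonoid.addOrderOf_eq_one_iff.1 h)
    rcases h2 with ⟨k, hk⟩
    omega
  have hoo : ∀ x y : A, Odd (oo x y) := fun x y =>
    Odd.of_dvd_nat (Odd.of_dvd_nat hodd (addOrderOf_dvd_natCard y)) (oo_dvd_order x y)
  have main : ∀ a b : A, Gen a b → a ≠ 0 → oo b a ≤ oo a b → Two a b := by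
    intro a b hg ha h1
    obtain ⟨k, hk⟩ := hoo a b
    obtain ⟨k', hk'⟩ := hoo b a
    rcases Nat.eq_zero_or_pos k' with h2 | h2
    · rcases Nat.eq_zero_or_pos k with h3 | h3
      · exact two_trivial hg (by omega) (by omega)
      · exact two_one hg (by omega) (by omega) (ho a ha)
    · exact two_many hg h1 (by omega) (by omega)
  rcases le_total (oo b a) (oo a b) with h | h
  · exact main a b hg ha h
  · exact (main b a hg.symm hb h).symm

end

end Pool.Agent.Y647.LAC
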