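import Pool.Agent.Y647.LAC.Transfer

set_option autoImplicit false

/-!
Circulant graphs: consecutive differences are paired.
-/

namespace Pool.Agent.Y647.LAC

open Finset SimpleGraph H931R3.LA Pool.Agent.W111.LAR Pool.Agent.TH486.LAC

section

variable (n : ℕ) [NeZero n]

set_option linter.unusedSectionVars false

/-- The circulant graph with the differences `± x`, `x ∈ l`. -/
def CG (l : List ℕ) : SimpleGraph (ZMod n) where
  Adj v w := v ≠ w ∧ ∃ x ∈ l, w = v + (x : ZMod n) ∨ v = w + (x : ZMod n)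
  symm := ⟨fun _ _ h => ⟨h.1.symm, by
    obtain ⟨x, hx, h2⟩ := h.2
    exact ⟨x, hx, h2.symm⟩⟩⟩
  loopless := ⟨fun _ h => h.1 rfl⟩

/-- The cost of pairing a list from the left. -/
def cost : List ℕ → ℕ
  | [] => 0
  | [x] => 2 * Nat.gcd x n
  | x :: y :: l => 4 * Nat.gcd (Nat.gcd x y) n + cost l

variable {n}

theorem gcd_le_sub {x : ℕ} (hx : 2 * x < n) : Nat.gcd x n ≤ n - 2 * x :=
  Nat.le_of_dvd (by omega)
    (Nat.dvd_sub (Nat.gcd_dvd_right _ _) (Dvd.dvd.mul_left (Nat.gcd_dvd_left _ _) 2))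

theorem gcd_gcd_le {x y : ℕ} (hxy : x < y) : Nat.gcd (Nat.gcd x y) n ≤ y - x :=
  Nat.le_of_dvd (by omega)
    ((Nat.gcd_dvd_left _ _).trans (Nat.dvd_sub (Nat.gcd_dvd_right _ _) (Nat.gcd_dvd_left _ _)))

theorem cost_le (l : List ℕ) : ∀ x, (x :: l).Pairwise (· < ·) → (∀ y ∈ x :: l, 2 * y < n) →
    cost n (x :: l) + cost n l + 4 * x ≤ 2 * n := by
  induction l with
  | nil =>
    intro x _ h2
    have h3 := h2 x (by simp)
    have h4 := gcd_le_sub h3
    show 2 * Nat.gcd x n + 0 + 4 * x ≤ 2 * n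
    omega
  | cons y l ih =>
    intro x h1 h2
    have h3 : x < y := (List.pairwise_cons.1 h1).1 y (by simp)
    have h4 := ih y (List.pairwise_cons.1 h1).2 (fun z hz => h2 z (List.mem_cons_of_mem _ hz))
    have h5 := gcd_gcd_le (n := n) h3
    show 4 * Nat.gcd (Nat.gcd x y) n + cost n l + cost n (y :: l) + 4 * x ≤ 2 * n
    omega

theorem CG_cons (x : ℕ) (l : List ℕ) : CG n (x :: l) = CG n [x] ⊔ CG n l := by
  ext v w
  rw [sup_adj]
  constructor
  · rintro ⟨h0, y, hy, h⟩
    rcases List.mem_cons.1 hy with rfl | hy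
    · exact Or.inl ⟨h0, y, by simp, h⟩
    · exact Or.inr ⟨h0, y, hy, h⟩
  · rintro (⟨h0, y, hy, h⟩ | ⟨h0, y, hy, h⟩)
    · rw [List.mem_singleton] at hy
      subst hy
      exact ⟨h0, y, by simp, h⟩
    · exact ⟨h0, y, List.mem_cons_of_mem _ hy, h⟩

theorem CG_cons2 (x y : ℕ) (l : List ℕ) : CG n (x :: y :: l) = CG n [x, y] ⊔ CG n l := by
  rw [CG_cons x (y :: l), CG_cons y l, ← sup_assoc, ← CG_cons x [y]]

theorem CG_nil : CG n [] = ⊥ := by
  ext v w
  constructor
  · rintro ⟨_, y, hy, _⟩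
    simp at hy
  · intro h
    simp at h

/-- One difference. -/
theorem lw_one {x : ℕ} : LW (CG n [x]) 1 ((2 * Nat.gcd x n : ℕ) / (n : ℝ)) := by
  have hn : 0 < n := Nat.pos_of_ne_zero (NeZero.ne n)
  have hgpos : 0 < Nat.gcd x n := Nat.gcd_pos_of_pos_right _ hn
  refine LW.one ?_ ?_
  · intro v
    have hsub : (CG n [x]).neighborSet v ⊆ {v + (x : ZMod n), v - (x : ZMod n)} := by
      rintro w ⟨_, y, hy, h⟩
      rw [List.mem_singleton] at hy
      subst hy
      rcases h with h | h
      · exact Or.inl h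
      · exact Or.inr (eq_sub_of_add_eq h.symm)
    refine (Set.ncard_le_ncard hsub (Set.toFinite _)).trans ?_
    exact (Set.ncard_insert_le _ _).trans (by simp)
  · intro v
    have h1 : n / n.gcd x ≤ csize (CG n [x]) v := by
      rw [← ZMod.addOrderOf_coe x (NeZero.ne n)]
      unfold csize
      have h2 : ∀ k : ℕ, (CG n [x]).Reachable v (v + k • (x : ZMod n)) := by
        intro k
        induction k with
        | zero => simp
        | succ k ih =>
          refine ih.trans ?_
          by_cases h : v + k • (x : ZMod n) = v + (k + 1) • (x : ZMod n)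
          · rw [h]
          · exact Adj.reachable ⟨h, x, by simp, Or.inl (by rw [succ_nsmul]; abel)⟩
      have h3 : ((fun k : ℕ => v + k • (x : ZMod n)) '' (Set.Iio (addOrderOf (x : ZMod n)))) ⊆
          {w | (CG n [x]).Reachable v w} := by
        rintro _ ⟨k, _, rfl⟩
        exact h2 k
      have h4 : Set.InjOn (fun k : ℕ => v + k • (x : ZMod n))
          (Set.Iio (addOrderOf (x : ZMod n))) := by
        intro k hk k' hk' h
        have h5 := add_left_cancel h
        exact Nat.ModEq.eq_of_lt_of_lt (nsmul_eq_nsmul_iff_modEq.1 h5) hk hk'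
      have h5 := Set.ncard_le_ncard h3 (Set.toFinite _)
      rw [h4.ncard_image] at h5
      have h6 : (Set.Iio (addOrderOf (x : ZMod n))).ncard = addOrderOf (x : ZMod n) := by
        rw [Set.ncard_eq_toFinset_card']
        simp
      rwa [h6] at h5
    have hc : (0 : ℝ) < csize (CG n [x]) v := by exact_mod_cast csize_pos _ v
    rw [div_le_div_iff₀ hc (by exact_mod_cast hn)]
    have h2 : n ≤ Nat.gcd x n * csize (CG n [x]) v := by
      rw [Nat.gcd_comm n x] at h1
      calc n = Nat.gcd x n * (n / Nat.gcd x n) := (Nat.mul_div_cancel' (Nat.gcd_dvd_right _ _)).symm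
        _ ≤ _ := Nat.mul_le_mul_left _ h1
    have h3 : (n : ℝ) ≤ (Nat.gcd x n : ℝ) * csize (CG n [x]) v := by exact_mod_cast h2
    push_cast
    nlinarith

/-- Two differences. -/
theorem lw_two {x y : ℕ}
    (hTwo : ∀ (H : AddSubgroup (ZMod n)) (a b : H), (a : ZMod n) = x → (b : ZMod n) = y →
      Gen a b → Two a b) :
    LW (CG n [x, y]) 2 ((4 * Nat.gcd (Nat.gcd x y) n : ℕ) / (n : ℝ)) := by
  have hn : 0 < n := Nat.pos_of_ne_zero (NeZero.ne n)
  set g0 := Nat.gcd (Nat.gcd x y) n with hg0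
  have hgpos : 0 < g0 := Nat.gcd_pos_of_pos_right _ hn
  set H : AddSubgroup (ZMod n) := AddSubgroup.closure {(x : ZMod n), (y : ZMod n)} with hH
  let a : H := ⟨x, AddSubgroup.subset_closure (by simp)⟩
  let b : H := ⟨y, AddSubgroup.subset_closure (by simp)⟩
  have hgen : Gen a b := by
    rintro ⟨z, hz⟩
    obtain ⟨i, k, h⟩ := (AddSubgroup.mem_closure_pair).1 hz
    have h1 : i • a ∈ AddSubgroup.zmultiples a := AddSubgroup.zsmul_mem_zmultiples _ _
    have h2 : k • b ∈ AddSubgroup.zmultiples b := AddSubgroup.zsmul_mem_zmultiples _ _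
    obtain ⟨i', _, hi'⟩ := exists_nat_smul h1
    obtain ⟨k', _, hk'⟩ := exists_nat_smul h2
    refine ⟨k', i', ?_⟩
    rw [← hi', ← hk']
    apply Subtype.ext
    show z = ((k • b + i • a : H) : ZMod n)
    rw [← h]
    push_cast
    exact add_comm _ _
  obtain ⟨P, Q, h1, h2, h3⟩ := two_up (hTwo H a b rfl rfl hgen)
  have hcard : n ≤ g0 * Nat.card H := by
    have hmem : ((g0 : ℕ) : ZMod n) ∈ H := by
      have hx : (x : ZMod n) ∈ H := AddSubgroup.subset_closure (by simp)
      have hy : (y : ZMod n) ∈ H := AddSubgroup.subset_closure (by simp)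
      have e1 := Nat.gcd_eq_gcd_ab (Nat.gcd x y) n
      have e2 := Nat.gcd_eq_gcd_ab x y
      have e3 : ((g0 : ℕ) : ZMod n) = (Nat.gcdA (Nat.gcd x y) n) •
          ((Nat.gcdA x y) • (x : ZMod n) + (Nat.gcdB x y) • (y : ZMod n)) := by
        have e4 : (((g0 : ℕ) : ℤ) : ZMod n) = ((((Nat.gcd x y : ℕ) : ℤ) *
            Nat.gcdA (Nat.gcd x y) n + (n : ℤ) * Nat.gcdB (Nat.gcd x y) n : ℤ) : ZMod n) := by
          rw [hg0, e1]
        have e5 : (((Nat.gcd x y : ℕ) : ℤ) : ZMod n) =
            (((x : ℤ) * Nat.gcdA x y + (y : ℤ) * Nat.gcdB x y : ℤ) : ZMod n) := by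
          rw [e2]
        push_cast at e4 e5 ⊢
        rw [e4, e5]
        simp only [zsmul_eq_mul]
        rw [ZMod.natCast_self]
        ring
      rw [e3]
      exact AddSubgroup.zsmul_mem _ (add_mem (AddSubgroup.zsmul_mem _ hx _)
        (AddSubgroup.zsmul_mem _ hy _)) _
    have h4 : addOrderOf ((g0 : ℕ) : ZMod n) ≤ Nat.card H := by
      have h5 : addOrderOf (⟨_, hmem⟩ : H) = addOrderOf ((g0 : ℕ) : ZMod n) :=
        AddSubgroup.addOrderOf_mk _ _
      rw [← h5]
      exact Nat.le_of_dvd Nat.card_pos (addOrderOf_dvd_natCard _)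
    rw [ZMod.addOrderOf_coe g0 (NeZero.ne n)] at h4
    have h5 : n.gcd g0 = g0 := Nat.gcd_eq_right (Nat.gcd_dvd_right _ _)
    rw [h5] at h4
    calc n = g0 * (n / g0) := (Nat.mul_div_cancel' (Nat.gcd_dvd_right _ _)).symm
      _ ≤ _ := Nat.mul_le_mul_left _ h4
  have hload : ∀ (P : SimpleGraph (ZMod n)) (v : ZMod n), Nat.card H ≤ csize P v →
      2 / (csize P v : ℝ) ≤ (2 * g0 : ℕ) / (n : ℝ) := by
    intro P v h
    have hc : (0 : ℝ) < csize P v := by exact_mod_cast csize_pos _ v
    rw [div_le_div_iff₀ hc (by exact_mod_cast hn)]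
    have h3 : (n : ℝ) ≤ (g0 : ℝ) * csize P v := by
      exact_mod_cast hcard.trans (Nat.mul_le_mul_left _ h)
    push_cast
    nlinarith
  have h5 := (LW.one (fun v => (h1 v).1) (fun v => hload P v (h2 v).1)).sup
    (LW.one (fun v => (h1 v).2) (fun v => hload Q v (h2 v).2))
  have e1 : P ⊔ Q = CG n [x, y] := by
    ext v w
    rw [h3]
    constructor
    · rintro ⟨h0, h | h | h | h⟩
      · exact ⟨h0, x, by simp, Or.inl h⟩
      · exact ⟨h0, x, by simp, Or.inr h⟩
      · exact ⟨h0, y, by simp, Or.inl h⟩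
      · exact ⟨h0, y, by simp, Or.inr h⟩
    · rintro ⟨h0, z, hz, h⟩
      refine ⟨h0, ?_⟩
      simp only [List.mem_cons, List.not_mem_nil, or_false] at hz
      rcases hz with rfl | rfl
      · rcases h with h | h
        · exact Or.inl h
        · exact Or.inr (Or.inl h)
      · rcases h with h | h
        · exact Or.inr (Or.inr (Or.inl h))
        · exact Or.inr (Or.inr (Or.inr h))
  rw [e1] at h5
  have e2 : ((4 * g0 : ℕ) : ℝ) / n = (2 * g0 : ℕ) / (n : ℝ) + (2 * g0 : ℕ) / (n : ℝ) := by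
    push_cast; ring
  rw [e2]
  exact h5

/-- The hypothesis on pairs of differences. -/
def PairOK (n : ℕ) [NeZero n] : Prop :=
  ∀ (x y : ℕ), 0 < x → x < y → 2 * y < n →
    ∀ (H : AddSubgroup (ZMod n)) (a b : H), (a : ZMod n) = x → (b : ZMod n) = y →
      Gen a b → Two a b

theorem lw_cost (hok : PairOK n) : ∀ (k : ℕ) (l : List ℕ), l.length ≤ k →
    l.Pairwise (· < ·) → (∀ y ∈ l, 0 < y ∧ 2 * y < n) →
    LW (CG n l) l.length ((cost n l : ℕ) / (n : ℝ)) := by
  intro k
  induction k with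
  | zero =>
    intro l hl _ _
    have : l = [] := List.length_eq_zero_iff.1 (by omega)
    subst this
    rw [CG_nil]
    have : ((cost n [] : ℕ) : ℝ) / n = 0 := by simp [cost]
    rw [this]
    exact LW.bot
  | succ k ih =>
    intro l hl h1 h2
    match l, hl, h1, h2 with
    | [], _, _, _ =>
      rw [CG_nil]
      have : ((cost n [] : ℕ) : ℝ) / n = 0 := by simp [cost]
      rw [this]
      exact LW.bot
    | [x], _, _, _ => exact lw_one
    | x :: y :: l, hl, h1, h2 =>
      have h3 := lw_two (hok x y (h2 x (by simp)).1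
        ((List.pairwise_cons.1 h1).1 y (by simp)) (h2 y (by simp)).2)
      have h4 := ih l (by simp at hl; omega)
        (List.pairwise_cons.1 (List.pairwise_cons.1 h1).2).2
        (fun z hz => h2 z (by simp [hz]))
      have h5 := h3.sup h4
      rw [← CG_cons2] at h5
      have e1 : 2 + l.length = (x :: y :: l).length := by simp; omega
      have e2 : ((4 * Nat.gcd (Nat.gcd x y) n : ℕ) : ℝ) / n + (cost n l : ℕ) / (n : ℝ) =
          (cost n (x :: y :: l) : ℕ) / (n : ℝ) := by
        rw [← add_div]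
        congr 1
        show _ = ((4 * Nat.gcd (Nat.gcd x y) n + cost n l : ℕ) : ℝ)
        push_cast
        rfl
      rwa [e1, e2] at h5

/-- The load of a circulant graph is at most one. -/
theorem ld_circ (hok : PairOK n) (l : List ℕ) (h1 : l.Pairwise (· < ·))
    (h2 : ∀ y ∈ l, 0 < y ∧ 2 * y < n) : LD (CG n l) l.length := by
  have hn : (0 : ℝ) < n := by exact_mod_cast Nat.pos_of_ne_zero (NeZero.ne n)
  match l, h1, h2 with
  | [], _, _ =>
    rw [CG_nil]
    exact LW.bot.ld (by norm_num)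
  | x :: l, h1, h2 =>
    have h3 := cost_le l x h1 (fun y hy => (h2 y hy).2)
    have h4 : Nat.gcd x n ≤ x := Nat.gcd_le_left _ (h2 x (by simp)).1
    rcases Nat.lt_or_ge n (cost n (x :: l)) with h5 | h5
    · have h6 := (lw_one (n := n) (x := x)).sup (lw_cost hok l.length l le_rfl
        (List.pairwise_cons.1 h1).2 (fun z hz => h2 z (List.mem_cons_of_mem _ hz)))
      rw [← CG_cons] at h6
      have e1 : 1 + l.length = (x :: l).length := by simp; omega
      rw [e1] at h6
      refine h6.ld ?_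
      rw [← add_div, div_le_one hn]
      have : 2 * Nat.gcd x n + cost n l ≤ n := by omega
      exact_mod_cast this
    · refine (lw_cost hok (x :: l).length (x :: l) le_rfl h1 h2).ld ?_
      rw [div_le_one hn]
      exact_mod_cast h5

end

end Pool.Agent.Y647.LAC
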