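import Pool.Agent.Y647.LAC.Many

set_option autoImplicit false

/-!
The second switched two-factor is connected: an odd number of cosets and odd excess.
-/

namespace Pool.Agent.Y647.LAC

open Finset SimpleGraph H931R3.LA Pool.Agent.W111.LAR Pool.Agent.TH486.LAC

section

variable {A : Type} [AddCommGroup A]

theorem many_odd {a b : A} {h L m s q : ℕ} (hh : 3 ≤ h) (hodd : h % 2 = 1) (hm : 1 ≤ m)
    (hL : L + 2 = 2 * m + h) (hsb : s • b = 0) (hq : h • a = q • b) (hqs : L + q + 1 ≤ s)
    (hcov : ∀ x : A, ∃ j < h, ∃ l < s, x = j • a + l • b)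
    (huniq : ∀ j j' l l' : ℕ, j < h → j' < h → j • a + l • b = j' • a + l' • b →
      j = j' ∧ l ≡ l' [MOD s]) (v w : A) :
    (Fc b a (DD a b (stair m) L)).Reachable v w := by
  set D := DD a b (stair m) L with hDdef
  set F := Fc b a D with hF
  have st0 : ∀ i, i < 2 * m → i % 2 = 0 → stair m i = 0 := by
    intro i h1 h2; unfold stair; rw [if_pos h1, h2]
  have st1 : ∀ i, i < 2 * m → i % 2 = 1 → stair m i = 1 := by
    intro i h1 h2; unfold stair; rw [if_pos h1, h2]
  have st2 : ∀ i, 2 * m ≤ i → stair m i = i + 2 - 2 * m := by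
    intro i h1; unfold stair; rw [if_neg (by omega)]
  have hsbd : ∀ i, i < L → stair m i < h := by
    intro i hi
    unfold stair
    split_ifs <;> omega
  have hsbd' : ∀ i, i < L → stair m i + 1 < h ∨ (stair m i + 1 = h ∧ i = L - 1) := by
    intro i hi
    unfold stair
    split_ifs <;> omega
  -- retained edges
  have hret : ∀ j l, j < h → l < s → (l < L → stair m l ≠ j ∧ stair m l + 1 ≠ j) →
      (j = 0 → l ≠ L - 1 + q) →
      j • a + l • b ∉ D ∧ j • a + l • b - a ∉ D := by
    intro j l hj hl hne hne'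
    refine ⟨?_, ?_⟩
    · rintro ⟨i, hi, h1⟩
      have h1' : j • a + l • b = stair m i • a + i • b := by
        rw [add_comm (stair m i • a)]; exact h1
      obtain ⟨h2, h3⟩ := huniq _ _ _ _ hj (hsbd i hi) h1'
      have h4 : l = i := Nat.ModEq.eq_of_lt_of_lt h3 hl (by omega)
      subst h4
      exact (hne hi).1 h2.symm
    · rintro ⟨i, hi, h1⟩
      have h1' : j • a + l • b = (stair m i + 1) • a + i • b := by
        rw [sub_eq_iff_eq_add] at h1
        rw [h1, succ_nsmul]; abel
      rcases hsbd' i hi with h5 | ⟨h5, h6⟩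
      · obtain ⟨h2, h3⟩ := huniq _ _ _ _ hj h5 h1'
        have h4 : l = i := Nat.ModEq.eq_of_lt_of_lt h3 hl (by omega)
        subst h4
        exact (hne hi).2 h2.symm
      · have h7 : j • a + l • b = (0 : ℕ) • a + (i + q) • b := by
          rw [h1', h5, hq, zero_nsmul, zero_add, add_nsmul]; abel
        obtain ⟨h2, h3⟩ := huniq _ _ _ _ hj (by omega) h7
        have h4 : l = i + q := Nat.ModEq.eq_of_lt_of_lt h3 hl (by omega)
        exact hne' h2 (by omega)
  have harc : ∀ j l l' : ℕ, j < h → l ≤ l' → l' ≤ s →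
      (∀ t, l ≤ t → t < l' → (t < L → stair m t ≠ j ∧ stair m t + 1 ≠ j) ∧
        (j = 0 → t ≠ L - 1 + q)) →
      F.Reachable (j • a + l • b) (j • a + l' • b) := by
    intro j l l' hj hll hl' hne
    exact Fc_arc _ hll (fun t h1 h2 => hret j t hj (by omega) (hne t h1 h2).1 (hne t h1 h2).2)
  have hcor : ∀ i, i < L → stair m i • a + i • b ∈ D := fun i hi =>
    ⟨i, hi, add_comm _ _⟩
  -- switched edges
  have hsw : ∀ i, i < L → F.Reachable (stair m i • a + i • b) ((stair m i + 1) • a + i • b) := by
    intro i hi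
    have h1 := Fc_b (a := b) (b := a) (hcor i hi)
    have e1 : stair m i • a + i • b + a = (stair m i + 1) • a + i • b := by
      rw [succ_nsmul]; abel
    rwa [e1] at h1
  have hsw' : ∀ i, i < L → F.Reachable (stair m i • a + (i + 1) • b)
      ((stair m i + 1) • a + (i + 1) • b) := by
    intro i hi
    have h1 := Fc_b' (a := b) (b := a) (hcor i hi)
    have e1 : stair m i • a + i • b + b + a = (stair m i + 1) • a + (i + 1) • b := by
      rw [succ_nsmul, succ_nsmul]; abel
    have e2 : stair m i • a + i • b + b = stair m i • a + (i + 1) • b := by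
      rw [succ_nsmul]; abel
    rwa [e1, e2] at h1
  -- the two roots
  let ρ : ℕ → A := fun t => if t % 2 = 0 then 0 else (0 : ℕ) • a + (2 * m) • b
  have hρ0 : ρ 0 = 0 := rfl
  have hρ1 : ρ 1 = (0 : ℕ) • a + (2 * m) • b := rfl
  have hρ : ∀ t, ρ (t + 2) = ρ t := by
    intro t
    show (if (t + 2) % 2 = 0 then (0 : A) else _) = if t % 2 = 0 then (0 : A) else _
    rw [Nat.add_mod_right]
  have hs0 : ∀ j : ℕ, j • a + s • b = j • a + (0 : ℕ) • b := by
    intro j
    rw [hsb, zero_nsmul]
  -- the first coset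
  have K0Y : ∀ l, 2 * m ≤ l → l ≤ L - 1 + q → F.Reachable (ρ 1) (0 • a + l • b) := by
    intro l h1 h2
    exact harc 0 (2 * m) l (by omega) h1 (by omega) (fun t h3 h4 => ⟨fun _ => by
      rw [st2 t (by omega)]; omega, fun _ => by omega⟩)
  have K0X : ∀ l, L + q ≤ l → l ≤ s → F.Reachable (ρ 0) (0 • a + l • b) := by
    intro l h1 h2
    have h3 := harc 0 l s (by omega) h2 le_rfl (fun t h3 h4 => ⟨fun _ => by
      rw [st2 t (by omega)]; omega, fun _ => by omega⟩)
    rw [hs0, zero_nsmul, zero_nsmul, add_zero] at h3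
    rw [hρ0, zero_nsmul]
    exact h3.symm
  have X10 : F.Reachable (ρ 0) (1 • a + (0 : ℕ) • b) := by
    have h1 := hsw 0 (by omega)
    rw [st0 0 (by omega) rfl] at h1
    simp only [zero_nsmul, add_zero, zero_add] at h1 ⊢
    exact h1
  have K1X : ∀ l, 2 * m ≤ l → l ≤ s → F.Reachable (ρ 0) (1 • a + l • b) := by
    intro l h1 h2
    have h3 := harc 1 l s (by omega) h2 le_rfl (fun t h3 h4 => ⟨fun _ => by
      rw [st2 t (by omega)]; omega, fun h => by omega⟩)
    rw [hs0] at h3
    exact X10.trans h3.symm
  have X2m : F.Reachable (ρ 0) (2 • a + (2 * m) • b) := by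
    have h1 := hsw' (2 * m - 1) (by omega)
    rw [st1 (2 * m - 1) (by omega) (by omega)] at h1
    have e1 : 2 * m - 1 + 1 = 2 * m := by omega
    rw [e1] at h1
    exact (K1X (2 * m) le_rfl (by omega)).trans h1
  -- the snake
  have link01 : ∀ i, 1 ≤ i → i ≤ 2 * m - 1 →
      F.Reachable (0 • a + i • b) (1 • a + i • b) := by
    intro i h1 h2
    rcases Nat.mod_two_eq_zero_or_one i with h | h
    · have h3 := hsw i (by omega)
      rwa [st0 i (by omega) h] at h3
    · have h3 := hsw' (i - 1) (by omega)
      rw [st0 (i - 1) (by omega) (by omega)] at h3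
      have e1 : i - 1 + 1 = i := by omega
      rwa [e1] at h3
  have link12 : ∀ i, 1 ≤ i → i ≤ 2 * m - 1 →
      F.Reachable (1 • a + i • b) (2 • a + i • b) := by
    intro i h1 h2
    rcases Nat.mod_two_eq_zero_or_one i with h | h
    · have h3 := hsw' (i - 1) (by omega)
      rw [st1 (i - 1) (by omega) (by omega)] at h3
      have e1 : i - 1 + 1 = i := by omega
      rwa [e1] at h3
    · have h3 := hsw i (by omega)
      rwa [st1 i (by omega) h] at h3
  have snake : ∀ e i, i + e + 1 = 2 * m → 1 ≤ i →
      F.Reachable (ρ 1) (0 • a + i • b) ∧ F.Reachable (ρ 1) (1 • a + i • b) ∧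
      F.Reachable (ρ 1) (2 • a + i • b) := by
    intro e
    induction e with
    | zero =>
      intro i h1 h2
      have h3 := harc 0 i (2 * m) (by omega) (by omega) (by omega) (fun t h4 h5 => by
        have : t = i := by omega
        subst this
        rw [st1 t (by omega) (by omega)]; omega)
      have h4 := (K0Y (2 * m) le_rfl (by omega)).trans h3.symm
      have h5 := h4.trans (link01 i h2 (by omega))
      exact ⟨h4, h5, h5.trans (link12 i h2 (by omega))⟩
    | succ e ih =>
      intro i h1 h2
      obtain ⟨h3, h4, h5⟩ := ih (i + 1) (by omega) (by omega)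
      rcases Nat.mod_two_eq_zero_or_one i with h | h
      · have h6 := harc 2 i (i + 1) (by omega) (by omega) (by omega) (fun t h4 h5 => by
          have : t = i := by omega
          subst this
          rw [st0 t (by omega) (by omega)]; omega)
        have h7 := h5.trans h6.symm
        have h8 := h7.trans (link12 i h2 (by omega)).symm
        exact ⟨h8.trans (link01 i h2 (by omega)).symm, h8, h7⟩
      · have h6 := harc 0 i (i + 1) (by omega) (by omega) (by omega) (fun t h4 h5 => by
          have : t = i := by omega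
          subst this
          rw [st1 t (by omega) (by omega)]; omega)
        have h7 := h3.trans h6.symm
        have h8 := h7.trans (link01 i h2 (by omega))
        exact ⟨h7, h8, h8.trans (link12 i h2 (by omega))⟩
  have Y20 : F.Reachable (ρ 1) (2 • a + (0 : ℕ) • b) := by
    have h1 := (snake (2 * m - 2) 1 (by omega) le_rfl).2.2
    have h2 := harc 2 0 1 (by omega) (by omega) (by omega) (fun t h4 h5 => by
      have : t = 0 := by omega
      subst this
      rw [st0 0 (by omega) rfl]; omega)
    exact h1.trans h2.symm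
  have K2Y : ∀ l, l ≤ s → l ≠ 2 * m → F.Reachable (ρ 1) (2 • a + l • b) := by
    intro l hl hne
    rcases Nat.eq_zero_or_pos l with h0 | h0
    · rw [h0]; exact Y20
    rcases Nat.lt_or_ge l (2 * m) with h1 | h1
    · exact (snake (2 * m - 1 - l) l (by omega) h0).2.2
    · have h3 := harc 2 l s (by omega) hl le_rfl (fun t h3 h4 => ⟨fun h5 => by
        rw [st2 t (by omega)]; omega, fun h => by omega⟩)
      rw [hs0] at h3
      exact Y20.trans h3.symm
  -- the chain
  have chain' : ∀ j, 2 ≤ j → j < h → F.Reachable (ρ j) (j • a + (2 * m + j - 2) • b) ∧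
      ∀ l, l ≤ s → l ≠ 2 * m + j - 2 → F.Reachable (ρ (j + 1)) (j • a + l • b) := by
    intro j hj
    induction j, hj using Nat.le_induction with
    | base =>
      intro _
      refine ⟨?_, ?_⟩
      · rw [hρ 0]
        have e1 : 2 * m + 2 - 2 = 2 * m := by omega
        rw [e1]
        exact X2m
      · intro l hl hne
        rw [hρ 1]
        exact K2Y l hl (by omega)
    | succ j hj ih =>
      intro hjh
      obtain ⟨ih1, ih2⟩ := ih (by omega)
      have hp : stair m (2 * m + j - 2) = j := by
        rw [st2 _ (by omega)]; omega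
      have h1 := hsw (2 * m + j - 2) (by omega)
      have h2 := hsw' (2 * m + j - 2) (by omega)
      rw [hp] at h1 h2
      have Rp : F.Reachable (ρ j) ((j + 1) • a + (2 * m + j - 2) • b) := ih1.trans h1
      have Rp' : F.Reachable (ρ (j + 1)) ((j + 1) • a + (2 * m + j - 2 + 1) • b) :=
        (ih2 _ (by omega) (by omega)).trans h2
      have hlow : ∀ l, l ≤ 2 * m + j - 2 → F.Reachable (ρ j) ((j + 1) • a + l • b) := by
        intro l hl
        exact Rp.trans (harc (j + 1) l (2 * m + j - 2) hjh hl (by omega)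
          (fun t h3 h4 => ⟨fun h5 => by
            rcases Nat.lt_or_ge t (2 * m) with h6 | h6
            · rcases Nat.mod_two_eq_zero_or_one t with h7 | h7
              · rw [st0 t h6 h7]; omega
              · rw [st1 t h6 h7]; omega
            · rw [st2 t h6]; omega, fun h => by omega⟩)).symm
      refine ⟨?_, ?_⟩
      · have e1 : 2 * m + (j + 1) - 2 = 2 * m + j - 2 + 1 := by omega
        rw [e1]
        exact Rp'
      · intro l hl hne
        rw [hρ j]
        rcases Nat.lt_or_ge (2 * m + j - 2) l with h3 | h3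
        · have h4 := harc (j + 1) l s hjh hl le_rfl (fun t h5 h6 => ⟨fun h7 => by
              rw [st2 t (by omega)]; omega, fun h => by omega⟩)
          rw [hs0] at h4
          exact (hlow 0 (by omega)).trans h4.symm
        · exact hlow l h3
  -- the two roots are connected
  have hfin : F.Reachable (ρ 0) (ρ 1) := by
    obtain ⟨h1, _⟩ := chain' (h - 1) (by omega) (by omega)
    have e0 : 2 * m + (h - 1) - 2 = L - 1 := by omega
    have e1 : ρ (h - 1) = ρ 0 := by
      show (if (h - 1) % 2 = 0 then (0 : A) else _) = 0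
      rw [if_pos (by omega)]
    rw [e0, e1] at h1
    have h2 := hsw (L - 1) (by omega)
    have e2 : stair m (L - 1) = h - 1 := by
      rw [st2 _ (by omega)]; omega
    have e3 : h - 1 + 1 = h := by omega
    have e4 : h • a + (L - 1) • b = 0 • a + (L - 1 + q) • b := by
      rw [hq, zero_nsmul, zero_add, add_nsmul]; abel
    rw [e2, e3, e4] at h2
    exact (h1.trans h2).trans (K0Y _ (by omega) le_rfl).symm
  have hany : ∀ (t : ℕ) (z : A), F.Reachable (ρ t) z → F.Reachable (ρ 0) z := by
    intro t z hz
    rcases Nat.mod_two_eq_zero_or_one t with h | h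
    · have : ρ t = ρ 0 := by
        show (if t % 2 = 0 then (0 : A) else _) = 0
        rw [if_pos h]
      rwa [this] at hz
    · have : ρ t = ρ 1 := by
        show (if t % 2 = 0 then (0 : A) else _) = (0 : ℕ) • a + (2 * m) • b
        rw [if_neg (by omega)]
      rw [this] at hz
      exact hfin.trans hz
  have hall : ∀ x : A, F.Reachable (ρ 0) x := by
    intro x
    obtain ⟨j, hj, l, hl, rfl⟩ := hcov x
    rcases Nat.lt_or_ge j 2 with h1 | h1
    · rcases Nat.lt_or_ge l (2 * m) with h2 | h2
      · rcases Nat.eq_zero_or_pos l with h0 | h0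
        · subst h0
          rcases Nat.eq_zero_or_pos j with h3 | h3
          · rw [h3, hρ0, zero_nsmul, zero_nsmul, add_zero]
          · have : j = 1 := by omega
            rw [this]; exact X10
        · have h4 := snake (2 * m - 1 - l) l (by omega) h0
          rcases Nat.eq_zero_or_pos j with h3 | h3
          · rw [h3]; exact hany 1 _ h4.1
          · have : j = 1 := by omega
            rw [this]; exact hany 1 _ h4.2.1
      · rcases Nat.eq_zero_or_pos j with h3 | h3
        · rw [h3]
          rcases Nat.lt_or_ge l (L + q) with h4 | h4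
          · exact hany 1 _ (K0Y l h2 (by omega))
          · exact K0X l h4 hl.le
        · have : j = 1 := by omega
          rw [this]; exact K1X l h2 hl.le
    · by_cases h2 : l = 2 * m + j - 2
      · rw [h2]
        exact hany _ _ (chain' j h1 hj).1
      · exact hany _ _ ((chain' j h1 hj).2 l hl.le h2)
  exact (hall v).symm.trans (hall w)

/-- Two cosets, an odd number of levels. -/
theorem many_two {a b : A} {g s q : ℕ} (hg : g % 2 = 1) (hg3 : 3 ≤ g) (hsb : s • b = 0)
    (hq : 2 • a = q • b) (hgq : g ≤ q) (hqs : q + g ≤ s)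
    (hcov : ∀ x : A, ∃ j < 2, ∃ l < s, x = j • a + l • b)
    (huniq : ∀ j j' l l' : ℕ, j < 2 → j' < 2 → j • a + l • b = j' • a + l' • b →
      j = j' ∧ l ≡ l' [MOD s]) (v w : A) :
    (Fc b a (DD a b (fun i => i % 2) g)).Reachable v w := by
  set D := DD a b (fun i => i % 2) g with hDdef
  set F := Fc b a D with hF
  have hret : ∀ j l, j < 2 → l < s → (l < g → l % 2 ≠ j ∧ l % 2 + 1 ≠ j) →
      (j = 0 → ∀ i, i < g → i % 2 = 1 → l ≠ q + i) →
      j • a + l • b ∉ D ∧ j • a + l • b - a ∉ D := by
    intro j l hj hl hne hne'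
    refine ⟨?_, ?_⟩
    · rintro ⟨i, hi, h1⟩
      have h1' : j • a + l • b = (i % 2) • a + i • b := by
        rw [add_comm ((i % 2) • a)]; exact h1
      obtain ⟨h2, h3⟩ := huniq _ _ _ _ hj (Nat.mod_lt _ (by norm_num)) h1'
      have h4 : l = i := Nat.ModEq.eq_of_lt_of_lt h3 hl (by omega)
      subst h4
      exact (hne hi).1 h2.symm
    · rintro ⟨i, hi, h1⟩
      have h1' : j • a + l • b = (i % 2 + 1) • a + i • b := by
        have h1'' : j • a + l • b - a = i • b + (i % 2) • a := h1
        rw [sub_eq_iff_eq_add] at h1''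
        rw [h1'', succ_nsmul]; abel
      rcases Nat.mod_two_eq_zero_or_one i with h5 | h5
      · obtain ⟨h2, h3⟩ := huniq _ _ _ _ hj (by omega) h1'
        have h4 : l = i := Nat.ModEq.eq_of_lt_of_lt h3 hl (by omega)
        subst h4
        exact (hne hi).2 h2.symm
      · have h7 : j • a + l • b = (0 : ℕ) • a + (q + i) • b := by
          rw [h1', h5, zero_nsmul, zero_add, add_nsmul b q i, ← hq]
        obtain ⟨h2, h3⟩ := huniq _ _ _ _ hj (by omega) h7
        have h4 : l = q + i := Nat.ModEq.eq_of_lt_of_lt h3 hl (by omega)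
        exact hne' h2 i hi h5 h4
  have harc : ∀ j l l' : ℕ, j < 2 → l ≤ l' → l' ≤ s →
      (∀ t, l ≤ t → t < l' → (t < g → t % 2 ≠ j ∧ t % 2 + 1 ≠ j) ∧
        (j = 0 → ∀ i, i < g → i % 2 = 1 → t ≠ q + i)) →
      F.Reachable (j • a + l • b) (j • a + l' • b) := by
    intro j l l' hj hll hl' hne
    exact Fc_arc _ hll (fun t h1 h2 => hret j t hj (by omega) (hne t h1 h2).1 (hne t h1 h2).2)
  have hcor : ∀ i, i < g → (i % 2) • a + i • b ∈ D := fun i hi =>
    ⟨i, hi, add_comm _ _⟩
  have hsw : ∀ i, i < g → F.Reachable ((i % 2) • a + i • b) ((i % 2 + 1) • a + i • b) := by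
    intro i hi
    have h1 := Fc_b (a := b) (b := a) (hcor i hi)
    have e1 : (i % 2) • a + i • b + a = (i % 2 + 1) • a + i • b := by
      rw [succ_nsmul]; abel
    rwa [e1] at h1
  have hsw' : ∀ i, i < g → F.Reachable ((i % 2) • a + (i + 1) • b)
      ((i % 2 + 1) • a + (i + 1) • b) := by
    intro i hi
    have h1 := Fc_b' (a := b) (b := a) (hcor i hi)
    have e1 : (i % 2) • a + i • b + b + a = (i % 2 + 1) • a + (i + 1) • b := by
      rw [succ_nsmul, succ_nsmul]; abel
    have e2 : (i % 2) • a + i • b + b = (i % 2) • a + (i + 1) • b := by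
      rw [succ_nsmul]; abel
    rwa [e1, e2] at h1
  have e2a : ∀ i : ℕ, (1 + 1) • a + i • b = 0 • a + (q + i) • b := by
    intro i
    show 2 • a + i • b = _
    rw [zero_nsmul, zero_add, add_nsmul b q i, ← hq]
  let R : ℕ → ℕ → Prop := fun j l => F.Reachable 0 (j • a + l • b)
  have hR : ∀ j l, R j l ↔ F.Reachable 0 (j • a + l • b) := fun j l => Iff.rfl
  have R00 : R 0 0 := by
    rw [hR, zero_nsmul, zero_nsmul, add_zero]
  have Rs : ∀ j, R j s ↔ R j 0 := by
    intro j
    rw [hR, hR, hsb, zero_nsmul]
  have R10 : R 1 0 := by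
    have h1 := hsw 0 (by omega)
    exact R00.trans h1
  have K1 : ∀ l, g ≤ l → l ≤ s → R 1 l := by
    intro l h1 h2
    exact ((Rs 1).2 R10).trans (harc 1 l s (by omega) h2 le_rfl (fun t h3 h4 =>
      ⟨fun h5 => by omega, fun h5 => by omega⟩)).symm
  have R0g : R 0 g := by
    have h1 := hsw' (g - 1) (by omega)
    have e1 : (g - 1) % 2 = 0 := by omega
    have e2 : g - 1 + 1 = g := by omega
    rw [e1, e2] at h1
    exact (K1 g le_rfl (by omega)).trans h1.symm
  have K0a : ∀ l, g ≤ l → l ≤ q → R 0 l := by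
    intro l h1 h2
    exact R0g.trans (harc 0 g l (by omega) h1 (by omega) (fun t h3 h4 =>
      ⟨fun h5 => by omega, fun h5 i h6 h7 => by omega⟩))
  -- links in the rows
  have link01 : ∀ i, 1 ≤ i → i ≤ g - 1 →
      F.Reachable (0 • a + i • b) (1 • a + i • b) := by
    intro i h1 h2
    rcases Nat.mod_two_eq_zero_or_one i with h | h
    · have h3 := hsw i (by omega)
      rwa [h] at h3
    · have h3 := hsw' (i - 1) (by omega)
      have e0 : (i - 1) % 2 = 0 := by omega
      have e1 : i - 1 + 1 = i := by omega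
      rwa [e0, e1] at h3
  have link12 : ∀ i, 1 ≤ i → i ≤ g - 1 →
      F.Reachable (1 • a + i • b) (0 • a + (q + i) • b) := by
    intro i h1 h2
    rcases Nat.mod_two_eq_zero_or_one i with h | h
    · have h3 := hsw' (i - 1) (by omega)
      have e0 : (i - 1) % 2 = 1 := by omega
      have e1 : i - 1 + 1 = i := by omega
      rwa [e0, e1, e2a] at h3
    · have h3 := hsw i (by omega)
      rwa [h, e2a] at h3
  have snake : ∀ i, 1 ≤ i → i ≤ g - 1 → R 0 i ∧ R 1 i ∧ R 0 (q + i) := by
    intro i hi
    induction i, hi using Nat.le_induction with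
    | base =>
      intro _
      have h1 := harc 0 q (q + 1) (by omega) (by omega) (by omega) (fun t h3 h4 =>
        ⟨fun h5 => by omega, fun h5 i h6 h7 => by omega⟩)
      have h2 : R 0 (q + 1) := (K0a q hgq le_rfl).trans h1
      have h3 : R 1 1 := h2.trans (link12 1 le_rfl (by omega)).symm
      exact ⟨h3.trans (link01 1 le_rfl (by omega)).symm, h3, h2⟩
    | succ i hi ih =>
      intro h1
      obtain ⟨h2, h3, h4⟩ := ih (by omega)
      rcases Nat.mod_two_eq_zero_or_one i with h | h
      · have h5 := harc 0 (q + i) (q + i + 1) (by omega) (by omega) (by omega)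
          (fun t h3 h4 => ⟨fun h5 => by omega, fun h5 i' h6 h7 => by omega⟩)
        have h6 : R 0 (q + (i + 1)) := h4.trans h5
        have h7 : R 1 (i + 1) := h6.trans (link12 (i + 1) (by omega) h1).symm
        exact ⟨h7.trans (link01 (i + 1) (by omega) h1).symm, h7, h6⟩
      · have h5 := harc 0 i (i + 1) (by omega) (by omega) (by omega)
          (fun t h3 h4 => ⟨fun h5 => by omega, fun h5 i' h6 h7 => by omega⟩)
        have h6 : R 0 (i + 1) := h2.trans h5
        have h7 : R 1 (i + 1) := h6.trans (link01 (i + 1) (by omega) h1)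
        exact ⟨h6, h7, h7.trans (link12 (i + 1) (by omega) h1)⟩
  have K0b : ∀ l, q + g ≤ l → l ≤ s → R 0 l := by
    intro l h1 h2
    have h3 := (snake (g - 1) (by omega) le_rfl).2.2
    exact h3.trans (harc 0 (q + (g - 1)) l (by omega) (by omega) h2 (fun t h3 h4 =>
      ⟨fun h5 => by omega, fun h5 i h6 h7 => by omega⟩))
  have hall : ∀ x : A, F.Reachable 0 x := by
    intro x
    obtain ⟨j, hj, l, hl, rfl⟩ := hcov x
    rcases Nat.eq_zero_or_pos j with h3 | h3
    · rw [h3]
      rcases Nat.eq_zero_or_pos l with h0 | h0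
      · rw [h0]; exact R00
      rcases Nat.lt_or_ge l g with h1 | h1
      · exact (snake l h0 (by omega)).1
      rcases Nat.lt_or_ge q l with h2 | h2
      swap
      · exact K0a l h1 h2
      rcases Nat.lt_or_ge l (q + g) with h4 | h4
      · have h5 := (snake (l - q) (by omega) (by omega)).2.2
        have e1 : q + (l - q) = l := by omega
        rwa [e1] at h5
      · exact K0b l h4 hl.le
    · have : j = 1 := by omega
      rw [this]
      rcases Nat.eq_zero_or_pos l with h0 | h0
      · rw [h0]; exact R10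
      rcases Nat.lt_or_ge l g with h1 | h1
      · exact (snake l h0 (by omega)).2.1
      · exact K1 l h1 hl.le
  exact (hall v).symm.trans (hall w)

end

end Pool.Agent.Y647.LAC
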