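import Pool.Agent.TH486.LAC.Lift
import Pool.Agent.W111.LAR.Top

set_option autoImplicit false

/-!
Switched two-factors of a Cayley graph of degree four of an abelian group.
-/

namespace Pool.Agent.Y647.LAC

open Finset SimpleGraph H931R3.LA Pool.Agent.W111.LAR Pool.Agent.TH486.LAC

section

variable {A : Type} [AddCommGroup A]

/-- The edges in direction `a`, switched with the edges in direction `b` on the squares
`x, x + a, x + b, x + a + b` with `x ∈ D`. -/
def Fc (a b : A) (D : Set A) : SimpleGraph A where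
  Adj v w := v ≠ w ∧ ((w = v + a ∧ v ∉ D ∧ v - b ∉ D) ∨ (v = w + a ∧ w ∉ D ∧ w - b ∉ D) ∨
    (w = v + b ∧ (v ∈ D ∨ v - a ∈ D)) ∨ (v = w + b ∧ (w ∈ D ∨ w - a ∈ D)))
  symm := ⟨by
    rintro v w ⟨h0, h | h | h | h⟩
    · exact ⟨h0.symm, Or.inr (Or.inl h)⟩
    · exact ⟨h0.symm, Or.inl h⟩
    · exact ⟨h0.symm, Or.inr (Or.inr (Or.inr h))⟩
    · exact ⟨h0.symm, Or.inr (Or.inr (Or.inl h))⟩⟩
  loopless := ⟨fun v h => h.1 rfl⟩

theorem Fc_deg {a b : A} {D : Set A} (hD : ∀ x ∈ D, x + a ∉ D ∧ x + b ∉ D) (v : A) :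
    ((Fc a b D).neighborSet v).ncard ≤ 2 := by
  classical
  have hsub : (Fc a b D).neighborSet v ⊆
      {(if v ∉ D ∧ v - b ∉ D then v + a else if v ∈ D then v + b else v - b),
       (if v - a ∉ D ∧ v - a - b ∉ D then v - a else if v - a ∈ D then v + b else v - b)} := by
    rintro w ⟨_, h | h | h | h⟩
    · left
      rw [if_pos h.2]
      exact h.1
    · right
      have hw : w = v - a := eq_sub_of_add_eq h.1.symm
      subst hw
      rw [Set.mem_singleton_iff, if_pos h.2]
    · obtain ⟨h1, h2⟩ := h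
      by_cases hv : v ∈ D
      · left
        rw [if_neg (fun h => h.1 hv), if_pos hv]
        exact h1
      · right
        rcases h2 with h2 | h2
        · exact absurd h2 hv
        · rw [Set.mem_singleton_iff, if_neg (fun h => h.1 h2), if_pos h2]
          exact h1
    · obtain ⟨h1, h2⟩ := h
      have hw : w = v - b := eq_sub_of_add_eq h1.symm
      subst hw
      rcases h2 with h2 | h2
      · left
        have h3 : v ∉ D := by
          have := (hD _ h2).2
          rwa [sub_add_cancel] at this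
        rw [if_neg (fun h => h.2 h2), if_neg h3]
      · right
        have e1 : v - b - a = v - a - b := by abel
        rw [e1] at h2
        have h3 : v - a ∉ D := by
          have := (hD _ h2).2
          rwa [sub_add_cancel] at this
        rw [Set.mem_singleton_iff, if_neg (fun h => h.2 h2), if_neg h3]
  refine (Set.ncard_le_ncard hsub (Set.toFinite _)).trans ?_
  exact (Set.ncard_insert_le _ _).trans (by simp)

theorem Fc_sup (a b : A) (D : Set A) (v w : A) :
    (Fc a b D ⊔ Fc b a D).Adj v w ↔ v ≠ w ∧ (w = v + a ∨ v = w + a ∨ w = v + b ∨ v = w + b) := by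
  rw [sup_adj]
  show (v ≠ w ∧ _) ∨ (v ≠ w ∧ _) ↔ _
  tauto

theorem Fc_a {a b : A} {D : Set A} {v : A} (h1 : v ∉ D) (h2 : v - b ∉ D) :
    (Fc a b D).Reachable v (v + a) := by
  by_cases h : v = v + a
  · rw [← h]
  · exact Adj.reachable ⟨h, Or.inl ⟨rfl, h1, h2⟩⟩

theorem Fc_b {a b : A} {D : Set A} {v : A} (h1 : v ∈ D) :
    (Fc a b D).Reachable v (v + b) := by
  by_cases h : v = v + b
  · rw [← h]
  · exact Adj.reachable ⟨h, Or.inr (Or.inr (Or.inl ⟨rfl, Or.inl h1⟩))⟩

theorem Fc_b' {a b : A} {D : Set A} {v : A} (h1 : v ∈ D) :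
    (Fc a b D).Reachable (v + a) (v + a + b) := by
  by_cases h : v + a = v + a + b
  · rw [← h]
  · exact Adj.reachable ⟨h, Or.inr (Or.inr (Or.inl ⟨rfl, Or.inr (by rwa [add_sub_cancel_right])⟩))⟩

theorem Fc_arc {a b : A} {D : Set A} (y : A) {l l' : ℕ} (hll : l ≤ l')
    (h : ∀ t, l ≤ t → t < l' → y + t • a ∉ D ∧ y + t • a - b ∉ D) :
    (Fc a b D).Reachable (y + l • a) (y + l' • a) := by
  induction l', hll using Nat.le_induction with
  | base => exact Reachable.refl _
  | succ n hn ih =>
    have h1 := ih (fun t ht1 ht2 => h t ht1 (by omega))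
    have h2 := h n hn (by omega)
    have h3 := Fc_a (a := a) (b := b) h2.1 h2.2
    have e1 : y + n • a + a = y + (n + 1) • a := by
      rw [succ_nsmul]; abel
    rw [e1] at h3
    exact h1.trans h3

end

end Pool.Agent.Y647.LAC
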