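import Pool.Agent.Y647.LAC.Chain

set_option autoImplicit false

/-!
The second switched two-factor is connected: the case in which `b` generates the group.
-/

namespace Pool.Agent.Y647.LAC

open Finset SimpleGraph H931R3.LA Pool.Agent.W111.LAR Pool.Agent.TH486.LAC

section

variable {A : Type} [AddCommGroup A]

theorem one_gen {a b : A} {n α g L : ℕ} (hL : L + 1 = g) (hn : n • b = 0)
    (hcov : ∀ x : A, ∃ l < n, x = l • b)
    (huniq : ∀ l l' : ℕ, l < n → l' < n → l • b = l' • b → l = l')
    (ha : a = α • b) (hg : 2 ≤ g) (hgα : g ≤ α) (h2α : 2 * α + g ≤ n) (v w : A) :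
    (Fc b a (DD a b (fun i => i % 2) L)).Reachable v w := by
  set D := DD a b (fun i => i % 2) L with hDdef
  set F := Fc b a D with hF
  -- the corners
  have hpt : ∀ i : ℕ, i • b + (i % 2) • a = (i + (i % 2) * α) • b := by
    intro i
    rw [ha, smul_smul, ← add_nsmul]
  have hmem : ∀ i, i < L → (i + (i % 2) * α) • b ∈ D := fun i hi => ⟨i, hi, (hpt i).symm⟩
  have hm0 : ∀ i, i < L → i % 2 = 0 → i • b ∈ D := by
    intro i hi h
    have := hmem i hi
    rwa [h, zero_mul, add_zero] at this
  have hm1 : ∀ i, i < L → i % 2 = 1 → (i + α) • b ∈ D := by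
    intro i hi h
    have := hmem i hi
    rwa [h, one_mul] at this
  have hbd : ∀ i, i < L → i + (i % 2) * α + α < n := by
    intro i hi
    rcases Nat.mod_two_eq_zero_or_one i with h | h <;> rw [h] <;> omega
  -- retained edges
  have hret : ∀ l, l < n → (∀ i, i < L → l ≠ i + (i % 2) * α ∧ l ≠ i + (i % 2) * α + α) →
      l • b ∉ D ∧ l • b - a ∉ D := by
    intro l hl h
    refine ⟨?_, ?_⟩
    · rintro ⟨i, hi, h1⟩
      have h1' : l • b = i • b + (i % 2) • a := h1
      rw [hpt] at h1'
      exact (h i hi).1 (huniq _ _ hl (by have := hbd i hi; omega) h1')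
    · rintro ⟨i, hi, h1⟩
      have h1' : l • b - a = i • b + (i % 2) • a := h1
      rw [hpt, sub_eq_iff_eq_add] at h1'
      have h2 : l • b = (i + (i % 2) * α + α) • b := by
        rw [h1', add_nsmul _ _ α, ← ha]
      exact (h i hi).2 (huniq _ _ hl (hbd i hi) h2)
  have harc : ∀ l l' : ℕ, l ≤ l' → l' ≤ n →
      (∀ t, l ≤ t → t < l' → ∀ i, i < L → t ≠ i + (i % 2) * α ∧ t ≠ i + (i % 2) * α + α) →
      F.Reachable (l • b) (l' • b) := by
    intro l l' hll hl' h
    have h1 := Fc_arc (a := b) (b := a) (D := D) 0 hll (fun t h1 h2 => by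
      rw [zero_add]
      exact hret t (by omega) (h t h1 h2))
    rwa [zero_add, zero_add] at h1
  -- switched edges
  have hs0 : ∀ i, i < L → i % 2 = 0 → F.Reachable (i • b) ((i + α) • b) := by
    intro i hi h
    have h1 := Fc_b (a := b) (b := a) (hm0 i hi h)
    rw [add_nsmul, ← ha]
    exact h1
  have hs0' : ∀ i, i < L → i % 2 = 0 → F.Reachable ((i + 1) • b) ((i + 1 + α) • b) := by
    intro i hi h
    have h1 := Fc_b' (a := b) (b := a) (hm0 i hi h)
    rw [add_nsmul _ _ α, ← ha, succ_nsmul]
    exact h1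
  have hs1 : ∀ i, i < L → i % 2 = 1 → F.Reachable ((i + α) • b) ((i + 2 * α) • b) := by
    intro i hi h
    have h1 := Fc_b (a := b) (b := a) (hm1 i hi h)
    have e1 : i + 2 * α = (i + α) + α := by ring
    have e2 : (i + 2 * α) • b = (i + α) • b + a := by rw [e1, add_nsmul _ _ α, ← ha]
    rw [e2]
    exact h1
  have hs1' : ∀ i, i < L → i % 2 = 1 →
      F.Reachable ((i + 1 + α) • b) ((i + 1 + 2 * α) • b) := by
    intro i hi h
    have h1 := Fc_b' (a := b) (b := a) (hm1 i hi h)
    have e1 : (i + 1 + α) • b = (i + α) • b + b := by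
      rw [← succ_nsmul]; congr 1; ring
    have e2 : (i + 1 + 2 * α) • b = (i + α) • b + b + a := by
      rw [← e1]
      have : i + 1 + 2 * α = (i + 1 + α) + α := by ring
      rw [this, add_nsmul _ _ α, ← ha]
    rw [e1, e2]
    exact h1
  -- the regions
  have S0 : F.Reachable (0 : A) ((0 : ℕ) • b) := by rw [zero_nsmul]
  have S1 : ∀ l, 2 * α + (g - 1) ≤ l → l ≤ n → F.Reachable 0 (l • b) := by
    intro l h1 h2
    have h3 := harc l n h2 le_rfl (fun t ht1 ht2 i hi => by
      rcases Nat.mod_two_eq_zero_or_one i with h | h <;> rw [h] <;> omega)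
    rw [hn] at h3
    exact h3.symm
  have S2 : F.Reachable 0 (α • b) := by
    have h1 := hs0 0 (by omega) rfl
    rw [zero_nsmul, zero_add] at h1
    exact h1
  have S3 : ∀ l, g - 1 ≤ l → l ≤ α → F.Reachable 0 (l • b) := by
    intro l h1 h2
    have h3 := harc l α h2 (by omega) (fun t ht1 ht2 i hi => by
      rcases Nat.mod_two_eq_zero_or_one i with h | h <;> rw [h] <;> omega)
    exact S2.trans h3.symm
  have S4 : F.Reachable 0 ((α + (g - 1)) • b) := by
    rcases Nat.mod_two_eq_zero_or_one (g - 2) with h | h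
    · have h1 := hs0' (g - 2) (by omega) h
      have e1 : g - 2 + 1 = g - 1 := by omega
      have e2 : g - 2 + 1 + α = α + (g - 1) := by omega
      rw [e2, e1] at h1
      exact (S3 (g - 1) le_rfl (by omega)).trans h1
    · have h1 := hs1' (g - 2) (by omega) h
      have e1 : g - 2 + 1 + α = α + (g - 1) := by omega
      have e2 : g - 2 + 1 + 2 * α = 2 * α + (g - 1) := by omega
      rw [e2, e1] at h1
      exact (S1 (2 * α + (g - 1)) le_rfl (by omega)).trans h1.symm
  have S5 : ∀ l, α + (g - 1) ≤ l → l ≤ 2 * α → F.Reachable 0 (l • b) := by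
    intro l h1 h2
    have h3 := harc (α + (g - 1)) l h1 (by omega) (fun t ht1 ht2 i hi => by
      rcases Nat.mod_two_eq_zero_or_one i with h | h <;> rw [h] <;> omega)
    exact S4.trans h3
  -- the snake
  have S6 : ∀ i, 1 ≤ i → i ≤ g - 2 → F.Reachable 0 (i • b) ∧ F.Reachable 0 ((i + α) • b) ∧
      F.Reachable 0 ((i + 2 * α) • b) := by
    intro i hi
    induction i, hi using Nat.le_induction with
    | base =>
      intro hg2
      have h1 := harc (2 * α) (2 * α + 1) (by omega) (by omega) (fun t ht1 ht2 i hi => by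
        rcases Nat.mod_two_eq_zero_or_one i with h | h <;> rw [h] <;> omega)
      have h2 : F.Reachable 0 ((1 + 2 * α) • b) := by
        rw [add_comm 1]
        exact (S5 (2 * α) (by omega) le_rfl).trans h1
      have h3 := h2.trans (hs1 1 (by omega) rfl).symm
      have h4 := hs0' 0 (by omega) rfl
      rw [zero_add] at h4
      exact ⟨h3.trans h4.symm, h3, h2⟩
    | succ i hi ih =>
      intro hg2
      obtain ⟨h1, h2, h3⟩ := ih (by omega)
      rcases Nat.mod_two_eq_zero_or_one i with h | h
      · -- `i` even: the edge at `2 α + i`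
        have h4 := harc (i + 2 * α) (i + 2 * α + 1) (by omega) (by omega)
          (fun t ht1 ht2 i' hi' => by
          rcases Nat.mod_two_eq_zero_or_one i' with h | h <;> rw [h] <;> omega)
        have h5 : F.Reachable 0 ((i + 1 + 2 * α) • b) := by
          have e1 : i + 1 + 2 * α = i + 2 * α + 1 := by ring
          rw [e1]
          exact h3.trans h4
        have h6 := h5.trans (hs1 (i + 1) (by omega) (by omega)).symm
        exact ⟨h6.trans (hs0' i (by omega) h).symm, h6, h5⟩
      · -- `i` odd: the edge at `i`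
        have h4 := harc i (i + 1) (by omega) (by omega)
          (fun t ht1 ht2 i' hi' => by
          rcases Nat.mod_two_eq_zero_or_one i' with h | h <;> rw [h] <;> omega)
        have h5 := h1.trans h4
        have h6 := h5.trans (hs0 (i + 1) (by omega) (by omega))
        exact ⟨h5, h6, h6.trans (hs1' i (by omega) h)⟩
  -- everything is reached
  have hall : ∀ x : A, F.Reachable 0 x := by
    intro x
    obtain ⟨l, hl, rfl⟩ := hcov x
    rcases Nat.eq_zero_or_pos l with h0 | h0
    · rw [h0]; exact S0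
    rcases Nat.lt_or_ge l (g - 1) with h1 | h1
    · exact (S6 l h0 (by omega)).1
    rcases Nat.lt_or_ge α l with h2 | h2
    swap
    · exact S3 l h1 h2
    rcases Nat.lt_or_ge l (α + (g - 1)) with h3 | h3
    · obtain ⟨i, rfl⟩ := Nat.exists_eq_add_of_lt h2
      have h4 := (S6 (i + 1) (by omega) (by omega)).2.1
      have e1 : α + i + 1 = i + 1 + α := by ring
      rw [e1]
      exact h4
    rcases Nat.lt_or_ge (2 * α) l with h4 | h4
    swap
    · exact S5 l h3 h4
    rcases Nat.lt_or_ge l (2 * α + (g - 1)) with h5 | h5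
    · obtain ⟨i, rfl⟩ := Nat.exists_eq_add_of_lt h4
      have h6 := (S6 (i + 1) (by omega) (by omega)).2.2
      have e1 : 2 * α + i + 1 = i + 1 + 2 * α := by ring
      rw [e1]
      exact h6
    · exact S1 l h5 hl.le
  exact (hall v).symm.trans (hall w)

end

end Pool.Agent.Y647.LAC
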