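import Pool.Agent.Y647.LAC.Coord

set_option autoImplicit false

/-!
From the subgroup generated by two elements to the whole group.
-/

namespace Pool.Agent.Y647.LAC

open Finset SimpleGraph H931R3.LA Pool.Agent.W111.LAR Pool.Agent.TH486.LAC

section

variable {A : Type} [AddCommGroup A] (H : AddSubgroup A)

/-- A base point of the coset of `v`. -/
noncomputable def bp (v : A) : A := (QuotientAddGroup.mk v : A ⧸ H).out

theorem bp_mk (v : A) : (QuotientAddGroup.mk (bp H v) : A ⧸ H) = QuotientAddGroup.mk v :=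
  Quotient.out_eq _

theorem bp_eq {v w : A} (h : (QuotientAddGroup.mk v : A ⧸ H) = QuotientAddGroup.mk w) :
    bp H v = bp H w := by
  unfold bp
  rw [h]

theorem sub_bp_mem (v : A) : v - bp H v ∈ H := by
  have h := (QuotientAddGroup.eq (s := H)).1 (bp_mk H v)
  rwa [neg_add_eq_sub] at h

/-- The position of `v` in its coset. -/
noncomputable def ff (v : A) : H := ⟨v - bp H v, sub_bp_mem H v⟩

theorem mk_add (v : A) (y : H) :
    (QuotientAddGroup.mk (v + y) : A ⧸ H) = QuotientAddGroup.mk v := by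
  rw [eq_comm, QuotientAddGroup.eq]
  simp

theorem ff_add (v : A) (y : H) : ff H (v + y) = ff H v + y := by
  apply Subtype.ext
  show v + y - bp H (v + y) = v - bp H v + y
  rw [bp_eq H (mk_add H v y)]
  abel

theorem ff_inj {v w : A} (h : (QuotientAddGroup.mk v : A ⧸ H) = QuotientAddGroup.mk w)
    (hf : ff H v = ff H w) : v = w := by
  have h1 : v - bp H v = w - bp H w := congrArg Subtype.val hf
  rw [bp_eq H h] at h1
  exact sub_left_injective h1

/-- The copies of a graph on `H` on all cosets. -/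
def up (P : SimpleGraph H) : SimpleGraph A where
  Adj v w := (QuotientAddGroup.mk v : A ⧸ H) = QuotientAddGroup.mk w ∧ P.Adj (ff H v) (ff H w)
  symm := ⟨fun _ _ h => ⟨h.1.symm, h.2.symm⟩⟩
  loopless := ⟨fun _ h => P.irrefl h.2⟩

variable {H}

theorem up_deg [Finite A] (P : SimpleGraph H) (hP : ∀ v, (P.neighborSet v).ncard ≤ 2) (v : A) :
    ((up H P).neighborSet v).ncard ≤ 2 := by
  refine le_trans ?_ (hP (ff H v))
  refine Set.ncard_le_ncard_of_injOn (ff H) (fun w hw => hw.2) ?_ (Set.toFinite _)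
  intro w hw w' hw' h
  exact ff_inj H (hw.1.symm.trans hw'.1) h

theorem up_reach (P : SimpleGraph H) {y z : H} (h : P.Reachable y z) (v : A) (hv : ff H v = y) :
    (up H P).Reachable v (v + ((z - y : H) : A)) := by
  obtain ⟨p⟩ := h
  induction p generalizing v with
  | nil => simp
  | @cons x y z hxy p ih =>
    have h1 : (up H P).Adj v (v + ((y - x : H) : A)) := by
      refine ⟨(mk_add H v _).symm, ?_⟩
      rw [ff_add, hv]
      simpa using hxy
    have h2 := ih (v + ((y - x : H) : A)) (by rw [ff_add, hv]; abel)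
    have e1 : v + ((y - x : H) : A) + ((z - y : H) : A) = v + ((z - x : H) : A) := by
      push_cast
      abel
    rw [e1] at h2
    exact h1.reachable.trans h2

theorem up_size [Finite A] (P : SimpleGraph H) (hP : ∀ v w, P.Reachable v w) (v : A) :
    Nat.card H ≤ csize (up H P) v := by
  unfold csize
  have h1 : (Set.range (fun y : H => v + ((y - ff H v : H) : A))) ⊆ {w | (up H P).Reachable v w} := by
    rintro _ ⟨y, rfl⟩
    exact up_reach P (hP (ff H v) y) v rfl
  have h2 : Function.Injective (fun y : H => v + ((y - ff H v : H) : A)) := by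
    intro y y' h
    have h3 := add_left_cancel h
    have h4 := Subtype.ext h3
    exact sub_left_injective h4
  rw [← Set.ncard_univ, ← Set.ncard_image_of_injective _ h2, Set.image_univ]
  exact Set.ncard_le_ncard h1 (Set.toFinite _)

theorem two_up [Finite A] {a b : H} (h : Two a b) :
    ∃ P Q : SimpleGraph A, (∀ v, (P.neighborSet v).ncard ≤ 2 ∧ (Q.neighborSet v).ncard ≤ 2) ∧
    (∀ v, Nat.card H ≤ csize P v ∧ Nat.card H ≤ csize Q v) ∧
    ∀ v w, (P ⊔ Q).Adj v w ↔ v ≠ w ∧ (w = v + a ∨ v = w + a ∨ w = v + b ∨ v = w + b) := by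
  obtain ⟨P, Q, h1, h2, h3⟩ := h
  refine ⟨up H P, up H Q, fun v => ⟨up_deg P (fun v => (h1 v).1) v, up_deg Q (fun v => (h1 v).2) v⟩,
    fun v => ⟨up_size P (fun v w => (h2 v w).1) v, up_size Q (fun v w => (h2 v w).2) v⟩, ?_⟩
  intro v w
  have e1 : (up H P ⊔ up H Q).Adj v w ↔ (QuotientAddGroup.mk v : A ⧸ H) = QuotientAddGroup.mk w ∧
      (P ⊔ Q).Adj (ff H v) (ff H w) := by
    rw [sup_adj, sup_adj]
    show (_ ∧ _) ∨ (_ ∧ _) ↔ _
    tauto
  rw [e1, h3]
  have key : ∀ (v w : A) (c : H), (QuotientAddGroup.mk v : A ⧸ H) = QuotientAddGroup.mk w →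
      (ff H w = ff H v + c ↔ w = v + c) := by
    intro v w c hvw
    rw [← ff_add]
    constructor
    · intro h
      exact ff_inj H (hvw.symm.trans (mk_add H v c).symm) h
    · intro h
      rw [h]
  constructor
  · rintro ⟨hvw, hne, h⟩
    refine ⟨fun h4 => hne (by rw [h4]), ?_⟩
    rwa [key v w a hvw, key w v a hvw.symm, key v w b hvw, key w v b hvw.symm] at h
  · rintro ⟨hne, h⟩
    have hvw : (QuotientAddGroup.mk v : A ⧸ H) = QuotientAddGroup.mk w := by
      rcases h with h | h | h | h <;> rw [h, mk_add]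
    refine ⟨hvw, fun h4 => hne (ff_inj H hvw h4), ?_⟩
    rwa [key v w a hvw, key w v a hvw.symm, key v w b hvw, key w v b hvw.symm]

end

/-- Decompositions into graphs of maximum degree two, with a bound for the load. -/
def LW {V : Type} (G : SimpleGraph V) (N : ℕ) (c : ℝ) : Prop :=
  ∃ (κ : Type) (_ : Fintype κ) (P : κ → SimpleGraph V), Fintype.card κ = N ∧
    (∀ i v, ((P i).neighborSet v).ncard ≤ 2) ∧ (∀ v, ∑ i, (2 : ℝ) / csize (P i) v ≤ c) ∧
    G = ⨆ i, P i

theorem LW.ld {V : Type} {G : SimpleGraph V} {N : ℕ} {c : ℝ} (h : LW G N c) (hc : c ≤ 1) :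
    LD G N := by
  obtain ⟨κ, _, P, h1, h2, h3, h4⟩ := h
  exact ⟨κ, inferInstance, P, h1, h2, fun v => (h3 v).trans hc, h4⟩

theorem LW.sup {V : Type} {G G' : SimpleGraph V} {N N' : ℕ} {c c' : ℝ} (h : LW G N c)
    (h' : LW G' N' c') : LW (G ⊔ G') (N + N') (c + c') := by
  obtain ⟨κ, _, P, h1, h2, h3, rfl⟩ := h
  obtain ⟨κ', _, P', h1', h2', h3', rfl⟩ := h'
  refine ⟨κ ⊕ κ', inferInstance, Sum.elim P P', by simp [h1, h1'], ?_, ?_, ?_⟩
  · rintro (i | i) v
    · exact h2 i v
    · exact h2' i v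
  · intro v
    rw [Fintype.sum_sum_type]
    exact add_le_add (h3 v) (h3' v)
  · rw [iSup_sum]
    rfl

theorem LW.bot {V : Type} : LW (⊥ : SimpleGraph V) 0 0 :=
  ⟨Empty, inferInstance, fun i => i.elim, by simp, fun i => i.elim, by simp,
    (iSup_of_empty _).symm⟩

theorem LW.one {V : Type} {P : SimpleGraph V} {c : ℝ} (h1 : ∀ v, (P.neighborSet v).ncard ≤ 2)
    (h2 : ∀ v, 2 / (csize P v : ℝ) ≤ c) : LW P 1 c :=
  ⟨Unit, inferInstance, fun _ => P, by simp, fun _ v => h1 v, by simpa using h2, by simp⟩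

end Pool.Agent.Y647.LAC
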